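import Mathlib
import Pool.Agent.H522R2.Commutant

namespace Pool.Agent.Results.MP_e72dc0_lc.InnerSymmetry

open Module
open Pool.Agent.H522R2.Commutant

/-- The value at the matrix `A` of the linear form with coefficient matrix `M`. -/
def form {F : Type*} [Field F] {α β : Type*} [Fintype α] [Fintype β] (M A : Matrix α β F) : F :=
  ∑ x, ∑ y, M x y * A x y

/-- The contribution `u_q(A) v_q(B) w_q` of the `q`-th multiplication. -/
def term {F : Type*} [Field F] {α β γ ι : Type*} [Fintype α] [Fintype β] [Fintype γ]
    (u : ι → Matrix α β F) (v : ι → Matrix β γ F) (w : ι → Matrix α γ F) (q : ι)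
    (A : Matrix α β F) (B : Matrix β γ F) : Matrix α γ F :=
  (form (u q) A * form (v q) B) • w q

/-- `u, v, w` is a bilinear algorithm, whose multiplications are indexed by `ι`, for the product of
an `α × β` matrix and a `β × γ` matrix. -/
def IsAlg {F : Type*} [Field F] {α β γ ι : Type*} [Fintype α] [Fintype β] [Fintype γ]
    [Fintype ι] (u : ι → Matrix α β F) (v : ι → Matrix β γ F) (w : ι → Matrix α γ F) : Prop :=
  ∀ (A : Matrix α β F) (B : Matrix β γ F), A * B = ∑ q, term u v w q A B

/-- There is a bilinear algorithm with `r` multiplications for the product of an `n × s` matrix and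
an `s × p` matrix over `F`. -/
def HasAlg (F : Type*) [Field F] (n s p r : ℕ) : Prop :=
  ∃ (u : Fin r → Matrix (Fin n) (Fin s) F) (v : Fin r → Matrix (Fin s) (Fin p) F)
    (w : Fin r → Matrix (Fin n) (Fin p) F), IsAlg u v w

/-- The least number of multiplications of a bilinear algorithm for the product of an `n × s`
matrix and an `s × p` matrix over `F`. -/
noncomputable def rank (F : Type*) [Field F] (n s p : ℕ) : ℕ := sInf {r | HasAlg F n s p r}

/-- The algorithm is invariant under the inner symmetry `(A, B) ↦ (A g, g⁻¹ B)`: a permutation `σ`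
of the multiplications exists such that multiplication `σ q` contributes, at `(A, B)`, what
multiplication `q` contributes at `(A g, g⁻¹ B)`. -/
def InnerInvariant {F : Type*} [Field F] {α β γ ι : Type*} [Fintype α] [Fintype β] [Fintype γ]
    [DecidableEq β] (g : Matrix.GeneralLinearGroup β F) (u : ι → Matrix α β F)
    (v : ι → Matrix β γ F) (w : ι → Matrix α γ F) : Prop :=
  ∃ σ : Equiv.Perm ι, ∀ (q : ι) (A : Matrix α β F) (B : Matrix β γ F),
    term u v w (σ q) A B =
      term u v w q (A * (g : Matrix β β F)) (((g⁻¹ : Matrix.GeneralLinearGroup β F) :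
        Matrix β β F) * B)

/-- The matrices commuting with all elements of `G` commute with each other. -/
def CommutantComm {F : Type*} [Field F] {β : Type*} [Fintype β] [DecidableEq β]
    (G : Subgroup (Matrix.GeneralLinearGroup β F)) : Prop :=
  ∀ P Q : Matrix β β F, (∀ g ∈ G, (g : Matrix β β F) * P = P * g) →
    (∀ g ∈ G, (g : Matrix β β F) * Q = Q * g) → P * Q = Q * P

section

variable {F : Type*} [Field F] {α β γ ι : Type*} [Fintype α] [Fintype β] [Fintype γ]
    [DecidableEq α] [DecidableEq β] [DecidableEq γ]
    {u : ι → Matrix α β F} {v : ι → Matrix β γ F} {w : ι → Matrix α γ F}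

omit [DecidableEq γ] [Fintype γ] in
theorem form_single (M : Matrix α β F) (a : α) (b : β) : form M (Matrix.single a b 1) = M a b := by
  unfold form
  rw [Finset.sum_eq_single a]
  · rw [Finset.sum_eq_single b]
    · simp
    · intro y _ hy; simp [Matrix.single, hy.symm]
    · simp
  · intro x _ hx
    apply Finset.sum_eq_zero
    intro y _; simp [Matrix.single, hx.symm]
  · simp

omit [DecidableEq γ] [Fintype γ] in
theorem form_single_mul (M : Matrix α β F) (a : α) (k : β) (g : Matrix β β F) :
    form M (Matrix.single a k (1 : F) * g) = ∑ y, M a y * g k y := by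
  unfold form
  rw [Finset.sum_eq_single a]
  · apply Finset.sum_congr rfl
    intro y _
    simp [Matrix.mul_apply, Matrix.single]
  · intro x _ hx
    apply Finset.sum_eq_zero
    intro y _
    simp [Matrix.mul_apply, Matrix.single, hx.symm]
  · simp

omit [DecidableEq α] [Fintype α] in
theorem form_mul_single (M : Matrix β γ F) (l : β) (b : γ) (g : Matrix β β F) :
    form M (g * Matrix.single l b (1 : F)) = ∑ x, M x b * g x l := by
  unfold form
  apply Finset.sum_congr rfl
  intro x _
  rw [Finset.sum_eq_single b]
  · simp [Matrix.mul_apply, Matrix.single]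
  · intro y _ hy
    simp [Matrix.mul_apply, Matrix.single, hy.symm]
  · simp

omit [Fintype α] [Fintype γ] [DecidableEq α] [DecidableEq γ] [DecidableEq β] in
theorem mul_rank_one (g g' : Matrix β β F) (x y : β → F) (c : F) (k l : β) :
    (g * (Matrix.of fun k l => x k * y l * c) * g') k l =
      (∑ z, x z * g k z) * (∑ z, y z * g' z l) * c := by
  simp only [Matrix.mul_apply, Matrix.of_apply, Finset.sum_mul, Finset.mul_sum]
  apply Finset.sum_congr rfl
  intro a _
  apply Finset.sum_congr rfl
  intro b _
  ring

def Rel (G : Subgroup (Matrix.GeneralLinearGroup β F)) (u : ι → Matrix α β F)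
    (v : ι → Matrix β γ F) (w : ι → Matrix α γ F) (p q : ι) : Prop :=
  ∃ g ∈ G, ∀ (A : Matrix α β F) (B : Matrix β γ F), term u v w q A B =
    term u v w p (A * (g : Matrix β β F)) (((g⁻¹ : Matrix.GeneralLinearGroup β F) :
      Matrix β β F) * B)

variable {G : Subgroup (Matrix.GeneralLinearGroup β F)}

omit [DecidableEq α] [DecidableEq γ] in
theorem Rel.refl (p : ι) : Rel G u v w p p := ⟨1, G.one_mem, by intro A B; simp⟩

omit [DecidableEq α] [DecidableEq γ] in
theorem Rel.symm {p q : ι} (h : Rel G u v w p q) : Rel G u v w q p := by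
  obtain ⟨g, hg, h⟩ := h
  refine ⟨g⁻¹, G.inv_mem hg, ?_⟩
  intro A B
  rw [h]
  congr 1
  · rw [Matrix.mul_assoc, ← Units.val_mul]; simp
  · rw [← Matrix.mul_assoc, ← Units.val_mul]; simp

omit [DecidableEq α] [DecidableEq γ] in
theorem Rel.trans {p q s : ι} (h : Rel G u v w p q) (h' : Rel G u v w q s) :
    Rel G u v w p s := by
  obtain ⟨g, hg, h⟩ := h
  obtain ⟨k, hk, h'⟩ := h'
  refine ⟨k * g, G.mul_mem hk hg, ?_⟩
  intro A B
  rw [h', h]
  congr 1
  · rw [Matrix.mul_assoc, ← Units.val_mul]
  · rw [← Matrix.mul_assoc, ← Units.val_mul, mul_inv_rev]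

/-- algorithms all of whose inner symmetries have a commutative commutant -/
theorem lower_commutant [Fintype ι] (hA : IsAlg u v w) (hG : CommutantComm G)
    (hinv : ∀ g ∈ G, InnerInvariant g u v w) :
    Fintype.card α * Fintype.card γ * Fintype.card β ≤ Fintype.card ι := by
  classical
  let S : Setoid ι := ⟨Rel G u v w, ⟨Rel.refl, Rel.symm, Rel.trans⟩⟩
  let Q := Quotient S
  let κ := {X : Q // w X.out ≠ 0}
  have hpos : ∀ X : κ, ∃ ij : α × γ, w X.1.out ij.1 ij.2 ≠ 0 := by
    intro X
    by_contra hcon
    push Not at hcon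
    apply X.2
    ext i j
    exact hcon (i, j)
  choose pos hpos using hpos
  let fib : κ → Finset ι := fun X => Finset.univ.filter (fun q => Quotient.mk S q = X.1)
  have hfib : ∀ X q, q ∈ fib X ↔ Quotient.mk S q = X.1 := by intro X q; simp [fib]
  have hrel : ∀ (X : κ) q, q ∈ fib X → Rel G u v w X.1.out q := by
    intro X q hq
    rw [hfib] at hq
    have : Quotient.mk S X.1.out = Quotient.mk S q := by rw [Quotient.out_eq, hq]
    exact @Quotient.exact _ S _ _ this
  let ω : κ → ι → F := fun X q => w q (pos X).1 (pos X).2 / w X.1.out (pos X).1 (pos X).2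
  -- `w q = ω X q • w X.out` as long as the product is nonzero
  have hω : ∀ (X : κ) q, q ∈ fib X → ∀ (a : α) (k l : β) (b : γ) (i : α) (j : γ),
      u q a k * v q l b * w q i j = u q a k * v q l b * ω X q * w X.1.out i j := by
    intro X q hq a k l b i j
    obtain ⟨g, hg, h⟩ := hrel X q hq
    have h1 := congrArg (fun M => M i j) (h (Matrix.single a k 1) (Matrix.single l b 1))
    have h2 := congrArg (fun M => M (pos X).1 (pos X).2)
      (h (Matrix.single a k 1) (Matrix.single l b 1))
    simp only [term, Matrix.smul_apply, form_single, smul_eq_mul] at h1 h2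
    simp only [ω]
    have h3 := hpos X
    rw [h1, mul_div_assoc', h2, mul_div_assoc, div_self h3]
    ring
  let Qm : κ → α → γ → Matrix β β F := fun X a b =>
    ∑ q ∈ fib X, Matrix.of fun k l => u q a k * v q l b * ω X q
  -- the commutation relations
  have hcomm1 : ∀ X a b, ∀ g ∈ G, (g : Matrix β β F) * Qm X a b = Qm X a b * g := by
    intro X a b g hg
    have key : (g : Matrix β β F) * Qm X a b *
        ((g⁻¹ : Matrix.GeneralLinearGroup β F) : Matrix β β F) = Qm X a b := by
      obtain ⟨σ, hσ⟩ := hinv g hg
      have hσX : ∀ q, q ∈ fib X ↔ σ q ∈ fib X := by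
        intro q
        rw [hfib, hfib]
        have : Quotient.mk S q = Quotient.mk S (σ q) :=
          @Quotient.sound _ S _ _ (show Rel G u v w q (σ q) from ⟨g, hg, hσ q⟩)
        rw [this]
      ext k l
      have e1 : ∀ q, (∑ y, u q a y * (g : Matrix β β F) k y) *
          (∑ x, v q x b * ((g⁻¹ : Matrix.GeneralLinearGroup β F) : Matrix β β F) x l) * ω X q =
          u (σ q) a k * v (σ q) l b * ω X (σ q) := by
        intro q
        have h1 := congrArg (fun M => M (pos X).1 (pos X).2)
          (hσ q (Matrix.single a k 1) (Matrix.single l b 1))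
        rw [term, term, Matrix.smul_apply, Matrix.smul_apply, form_single_mul,
          form_mul_single, form_single, form_single, smul_eq_mul, smul_eq_mul] at h1
        simp only [ω]
        rw [mul_div_assoc', ← h1, mul_div_assoc']
      calc ((g : Matrix β β F) * Qm X a b *
          ((g⁻¹ : Matrix.GeneralLinearGroup β F) : Matrix β β F)) k l
          = ∑ q ∈ fib X, (∑ y, u q a y * (g : Matrix β β F) k y) *
          (∑ x, v q x b * ((g⁻¹ : Matrix.GeneralLinearGroup β F) : Matrix β β F) x l) *
            ω X q := by
            simp only [Qm, Matrix.mul_sum, Matrix.sum_mul, Matrix.sum_apply]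
            exact Finset.sum_congr rfl (fun q _ =>
              mul_rank_one _ _ (fun k => u q a k) (fun l => v q l b) _ k l)
        _ = ∑ q ∈ fib X, u (σ q) a k * v (σ q) l b * ω X (σ q) :=
            Finset.sum_congr rfl (fun q _ => e1 q)
        _ = Qm X a b k l := by
            simp only [Qm, Matrix.sum_apply, Matrix.of_apply]
            exact Finset.sum_equiv σ hσX (fun q _ => rfl)
    calc (g : Matrix β β F) * Qm X a b = (g : Matrix β β F) * Qm X a b *
          (((g⁻¹ : Matrix.GeneralLinearGroup β F) : Matrix β β F) * (g : Matrix β β F)) := by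
          rw [← Units.val_mul]; simp
      _ = Qm X a b * g := by rw [← Matrix.mul_assoc, key]
  -- the sum relations
  have hW : ∀ i j a b, ∑ X, w X.1.out i j • Matrix.toLin' (Qm X a b) =
      if i = a ∧ j = b then 1 else 0 := by
    intro i j a b
    have e1 : ∑ X : κ, w X.1.out i j • Qm X a b = if i = a ∧ j = b then 1 else 0 := by
      ext k l
      have e2 : ∀ X : κ, (w X.1.out i j • Qm X a b) k l =
          ∑ q ∈ fib X, term u v w q (Matrix.single a k 1) (Matrix.single l b 1) i j := by
        intro X
        simp only [Qm, Matrix.smul_apply, Matrix.sum_apply, Matrix.of_apply, smul_eq_mul,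
          Finset.mul_sum]
        apply Finset.sum_congr rfl
        intro q hq
        rw [term, Matrix.smul_apply, form_single, form_single, smul_eq_mul, hω X q hq]
        ring
      have e3 : ∀ q, (¬ ∃ X : κ, q ∈ fib X) →
          term u v w q (Matrix.single a k 1) (Matrix.single l b 1) i j = 0 := by
        intro q hq
        have h1 : w (Quotient.mk S q).out = 0 := by
          by_contra hne
          exact hq ⟨⟨_, hne⟩, by rw [hfib]⟩
        obtain ⟨g, hg, h⟩ : Rel G u v w (Quotient.mk S q).out q :=
          @Quotient.exact _ S _ _ (Quotient.out_eq (Quotient.mk S q))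
        rw [h, term, h1]
        simp
      rw [Matrix.sum_apply]
      simp only [e2]
      rw [← Finset.sum_biUnion]
      · rw [Finset.sum_subset (Finset.subset_univ _)
          (fun q _ hq => e3 q (by simpa using hq))]
        have h1 := congrArg (fun M => M i j) (hA (Matrix.single a k 1) (Matrix.single l b 1))
        simp only [Matrix.sum_apply] at h1
        rw [← h1]
        by_cases hkl : k = l
        · subst hkl
          rw [Matrix.single_mul_single_same]
          by_cases hi : i = a
          · by_cases hj : j = b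
            · simp [hi, hj]
            · simp [Matrix.single, hj, Ne.symm hj]
          · simp [Matrix.single, hi, Ne.symm hi]
        · rw [Matrix.single_mul_single_of_ne _ _ _ _ hkl]
          split_ifs <;> simp [hkl]
      · intro X _ Y _ hXY
        rw [Function.onFun, Finset.disjoint_left]
        intro q hq hq'
        rw [hfib] at hq hq'
        exact hXY (Subtype.ext (hq.symm.trans hq'))
    have e4 : ∑ X : κ, w X.1.out i j • Matrix.toLin' (Qm X a b) =
        Matrix.toLin' (∑ X : κ, w X.1.out i j • Qm X a b) := by
      rw [map_sum]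
      exact Finset.sum_congr rfl (fun X _ => (map_smul _ _ _).symm)
    rw [e4, e1]
    split_ifs
    · rw [Matrix.toLin'_one]; rfl
    · rw [map_zero]
  have hcomm : ∀ X a b Y c d, Commute (Matrix.toLin' (Qm X a b)) (Matrix.toLin' (Qm Y c d)) := by
    intro X a b Y c d
    have := hG (Qm X a b) (Qm Y c d) (hcomm1 X a b) (hcomm1 Y c d)
    show Matrix.toLin' (Qm X a b) * Matrix.toLin' (Qm Y c d) =
      Matrix.toLin' (Qm Y c d) * Matrix.toLin' (Qm X a b)
    rw [Module.End.mul_eq_comp, Module.End.mul_eq_comp, ← Matrix.toLin'_mul, ← Matrix.toLin'_mul,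
      this]
  have hmain := card_mul_finrank_le (fun (X : κ) a b => Matrix.toLin' (Qm X a b))
    (fun X i j => w X.1.out i j) hW hcomm
  rw [Module.finrank_fintype_fun_eq_card] at hmain
  -- the rank bound
  have hrank : ∀ X : κ, finrank F (LinearMap.range
      (Phi (fun a b => Matrix.toLin' (Qm X a b)))) ≤ (fib X).card := by
    intro X
    let f1 : (γ → β → F) →ₗ[F] ({q // q ∈ fib X} → F) :=
      { toFun := fun η q => ∑ b, ∑ l, v q.1 l b * ω X q.1 * η b l
        map_add' := by
          intro η η'
          funext q
          simp only [Pi.add_apply, mul_add, Finset.sum_add_distrib]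
        map_smul' := by
          intro c η
          funext q
          simp only [Pi.smul_apply, smul_eq_mul, RingHom.id_apply, Finset.mul_sum]
          apply Finset.sum_congr rfl; intro b _
          apply Finset.sum_congr rfl; intro l _
          ring }
    let f2 : ({q // q ∈ fib X} → F) →ₗ[F] (α → β → F) :=
      { toFun := fun x a k => ∑ q : {q // q ∈ fib X}, u q.1 a k * x q
        map_add' := by
          intro η η'
          funext a k
          simp only [Pi.add_apply, mul_add, Finset.sum_add_distrib]
        map_smul' := by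
          intro c η
          funext a k
          simp only [Pi.smul_apply, smul_eq_mul, RingHom.id_apply, Finset.mul_sum]
          apply Finset.sum_congr rfl; intro b _
          ring }
    have hcomp : Phi (fun a b => Matrix.toLin' (Qm X a b)) = f2 ∘ₗ f1 := by
      apply LinearMap.ext
      intro η
      funext a k
      rw [Phi_apply]
      have e1 : (f2 ∘ₗ f1) η a k = ∑ q ∈ fib X, ∑ b, ∑ l,
          u q a k * (v q l b * ω X q * η b l) := by
        rw [← Finset.sum_attach (fib X)]
        simp only [LinearMap.comp_apply, LinearMap.coe_mk, AddHom.coe_mk, f1, f2, Finset.mul_sum]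
        rfl
      rw [e1, Finset.sum_apply, Finset.sum_comm]
      apply Finset.sum_congr rfl
      intro b _
      simp only [Matrix.toLin'_apply, Matrix.mulVec, dotProduct, Qm,
        Matrix.sum_apply, Matrix.of_apply, Finset.sum_mul]
      rw [Finset.sum_comm]
      apply Finset.sum_congr rfl; intro q _
      apply Finset.sum_congr rfl; intro l _
      ring
    rw [hcomp]
    calc finrank F (LinearMap.range (f2 ∘ₗ f1)) ≤ finrank F (LinearMap.range f2) :=
          Submodule.finrank_mono (LinearMap.range_comp_le_range _ _)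
      _ ≤ finrank F ({q // q ∈ fib X} → F) := LinearMap.finrank_range_le f2
      _ = (fib X).card := by simp
  calc Fintype.card α * Fintype.card γ * Fintype.card β ≤ _ := hmain
    _ ≤ ∑ X : κ, (fib X).card := Finset.sum_le_sum (fun X _ => hrank X)
    _ = (Finset.univ.biUnion fib).card := by
        rw [Finset.card_biUnion]
        intro X _ Y _ hXY
        rw [Function.onFun, Finset.disjoint_left]
        intro q hq hq'
        rw [hfib] at hq hq'
        exact hXY (Subtype.ext (hq.symm.trans hq'))
    _ ≤ Fintype.card ι := Finset.card_le_univ _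

/-! ### Changing the index types -/

omit [DecidableEq α] [DecidableEq β] [DecidableEq γ] in
theorem IsAlg.reindex {α' β' γ' ι' : Type*} [Fintype α'] [Fintype β'] [Fintype γ'] [Fintype ι']
    [Fintype ι] (hA : IsAlg u v w) (ea : α' ≃ α) (eb : β' ≃ β) (ec : γ' ≃ γ) (ei : ι' ≃ ι) :
    IsAlg (fun q => (u (ei q)).submatrix ea eb) (fun q => (v (ei q)).submatrix eb ec)
      (fun q => (w (ei q)).submatrix ea ec) := by
  intro A B
  have h := hA (A.submatrix ea.symm eb.symm) (B.submatrix eb.symm ec.symm)
  rw [Matrix.submatrix_mul_equiv] at h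
  have e1 : ∀ (M : Matrix α β F), form (M.submatrix ea eb) A =
      form M (A.submatrix ea.symm eb.symm) := by
    intro M
    unfold form
    rw [← Equiv.sum_comp ea]
    apply Finset.sum_congr rfl; intro x _
    rw [← Equiv.sum_comp eb]
    apply Finset.sum_congr rfl; intro y _
    simp
  have e2 : ∀ (M : Matrix β γ F), form (M.submatrix eb ec) B =
      form M (B.submatrix eb.symm ec.symm) := by
    intro M
    unfold form
    rw [← Equiv.sum_comp eb]
    apply Finset.sum_congr rfl; intro x _
    rw [← Equiv.sum_comp ec]
    apply Finset.sum_congr rfl; intro y _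
    simp
  ext i j
  have h1 := congrArg (fun M => M (ea i) (ec j)) h
  simp only [Matrix.submatrix_apply, Equiv.symm_apply_apply] at h1
  rw [h1, Matrix.sum_apply, Matrix.sum_apply, ← Equiv.sum_comp ei]
  apply Finset.sum_congr rfl
  intro q _
  simp only [term, Matrix.smul_apply, e1, e2, Matrix.submatrix_apply]

omit [DecidableEq α] [DecidableEq β] [DecidableEq γ] in
theorem IsAlg.hasAlg [Fintype ι] (hA : IsAlg u v w) :
    HasAlg F (Fintype.card α) (Fintype.card β) (Fintype.card γ) (Fintype.card ι) :=
  ⟨_, _, _, hA.reindex (Fintype.equivFin α).symm (Fintype.equivFin β).symm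
    (Fintype.equivFin γ).symm (Fintype.equivFin ι).symm⟩

omit [DecidableEq α] [DecidableEq β] [DecidableEq γ] in
theorem IsAlg.rank_le [Fintype ι] (hA : IsAlg u v w) :
    rank F (Fintype.card α) (Fintype.card β) (Fintype.card γ) ≤ Fintype.card ι :=
  Nat.sInf_le hA.hasAlg

omit [DecidableEq α] [DecidableEq γ] in
theorem InnerInvariant.reindex {ι' : Type*} {g : Matrix.GeneralLinearGroup β F}
    (hI : InnerInvariant g u v w) (ei : ι' ≃ ι) :
    InnerInvariant g (fun q => u (ei q)) (fun q => v (ei q)) (fun q => w (ei q)) := by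
  obtain ⟨σ, hσ⟩ := hI
  refine ⟨(ei.trans σ).trans ei.symm, ?_⟩
  intro q A B
  have := hσ (ei q) A B
  simp only [term, Equiv.trans_apply, Equiv.apply_symm_apply] at this ⊢
  exact this

/-- the standard algorithm -/
theorem standard : IsAlg (F := F) (α := α) (β := β) (γ := γ) (ι := α × β × γ)
    (fun q => Matrix.single q.1 q.2.1 1) (fun q => Matrix.single q.2.1 q.2.2 1)
    (fun q => Matrix.single q.1 q.2.2 1) := by
  intro A B
  have e1 : ∀ (a : α) (b : β), form (Matrix.single a b (1 : F)) A = A a b := by
    intro a b
    have := form_single A a b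
    rw [← this]
    unfold form
    apply Finset.sum_congr rfl; intro x _
    apply Finset.sum_congr rfl; intro y _
    ring
  have e2 : ∀ (a : β) (b : γ), form (Matrix.single a b (1 : F)) B = B a b := by
    intro a b
    have := form_single B a b
    rw [← this]
    unfold form
    apply Finset.sum_congr rfl; intro x _
    apply Finset.sum_congr rfl; intro y _
    ring
  ext i j
  simp only [term, e1, e2, Matrix.sum_apply, Matrix.smul_apply, Fintype.sum_prod_type,
    smul_eq_mul]
  rw [Finset.sum_eq_single i, Matrix.mul_apply]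
  · apply Finset.sum_congr rfl
    intro k _
    rw [Finset.sum_eq_single j]
    · simp
    · intro y _ hy; simp [Matrix.single, hy]
    · simp
  · intro x _ hx
    apply Finset.sum_eq_zero; intro k _
    apply Finset.sum_eq_zero; intro y _
    simp [Matrix.single, hx]
  · simp

omit [DecidableEq β] in
/-- every algorithm has at least `n p` multiplications -/
theorem card_mul_card_le [Fintype ι] [Nonempty β] (hA : IsAlg u v w) :
    Fintype.card α * Fintype.card γ ≤ Fintype.card ι := by
  classical
  let Θ : (α × γ → F) →ₗ[F] (ι → F) :=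
    LinearMap.pi (fun q => ∑ i : α × γ, w q i.1 i.2 • LinearMap.proj i)
  have hinj : Function.Injective Θ := by
    rw [← LinearMap.ker_eq_bot, LinearMap.ker_eq_bot']
    intro x hx
    have hx' : ∀ q, ∑ i : α × γ, w q i.1 i.2 * x i = 0 := by
      intro q
      have := congrFun hx q
      simpa [Θ, LinearMap.sum_apply] using this
    funext ij
    obtain ⟨i, j⟩ := ij
    obtain ⟨k⟩ := ‹Nonempty β›
    have h := hA (Matrix.single i k 1) (Matrix.single k j 1)
    rw [Matrix.single_mul_single_same] at h
    have h1 : ∑ ab : α × γ, (Matrix.single i j (1 * 1 : F)) ab.1 ab.2 * x ab = x (i, j) := by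
      rw [Finset.sum_eq_single (i, j)]
      · simp
      · intro y _ hy
        rw [Matrix.single_apply_of_ne, zero_mul]
        rintro ⟨h2, h3⟩
        exact hy (Prod.ext h2.symm h3.symm)
      · simp
    rw [← h1, h]
    simp only [Matrix.sum_apply, Finset.sum_mul, term, Matrix.smul_apply, smul_eq_mul]
    rw [Finset.sum_comm]
    apply Finset.sum_eq_zero
    intro q _
    have h4 := hx' q
    simp only [mul_assoc]
    rw [← Finset.mul_sum, ← Finset.mul_sum, h4, mul_zero, mul_zero]
  have := LinearMap.finrank_le_finrank_of_injective hinj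
  simpa using this

end

theorem rank_spec (F : Type*) [Field F] (n s p : ℕ) : HasAlg F n s p (rank F n s p) := by
  have hne : {r | HasAlg F n s p r}.Nonempty := by
    have h := (standard (F := F) (α := Fin n) (β := Fin s) (γ := Fin p)).hasAlg
    simp only [Fintype.card_fin] at h
    exact ⟨_, h⟩
  exact Nat.sInf_mem hne

theorem mul_le_rank (F : Type*) [Field F] (n s p : ℕ) (hs : 0 < s) : n * p ≤ rank F n s p := by
  obtain ⟨u, v, w, h⟩ := rank_spec F n s p
  have : Nonempty (Fin s) := ⟨⟨0, hs⟩⟩
  have := card_mul_card_le h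
  simpa using this

section Diagonal

variable {F : Type*} [Field F] {α β γ ι : Type*} [Fintype α] [Fintype β] [Fintype γ] [Fintype ι]
    [DecidableEq α] [DecidableEq β] [DecidableEq γ]
    {u : ι → Matrix α β F} {v : ι → Matrix β γ F} {w : ι → Matrix α γ F}

omit [Fintype ι] [Fintype α] [Fintype γ] [DecidableEq α] [DecidableEq γ] in
theorem diag_ne_zero {g : Matrix.GeneralLinearGroup β F} {δ : β → F}
    (hg : (g : Matrix β β F) = Matrix.diagonal δ) (k : β) : δ k ≠ 0 := by
  intro hk
  have h1 : (g : Matrix β β F) * ((g⁻¹ : Matrix.GeneralLinearGroup β F) : Matrix β β F) = 1 := by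
    rw [← Units.val_mul]; simp
  rw [hg] at h1
  have := congrArg (fun M => M k k) h1
  simp [Matrix.diagonal_mul, hk] at this

omit [Fintype ι] [Fintype α] [Fintype γ] [DecidableEq α] [DecidableEq γ] in
theorem diag_inv {g : Matrix.GeneralLinearGroup β F} {δ : β → F}
    (hg : (g : Matrix β β F) = Matrix.diagonal δ) :
    ((g⁻¹ : Matrix.GeneralLinearGroup β F) : Matrix β β F) =
      Matrix.diagonal (fun k => (δ k)⁻¹) := by
  have h1 : (g : Matrix β β F) * ((g⁻¹ : Matrix.GeneralLinearGroup β F) : Matrix β β F) = 1 := by
    rw [← Units.val_mul]; simp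
  rw [hg] at h1
  have h2 : ∀ k, δ k ≠ 0 := diag_ne_zero hg
  ext x y
  have h3 := congrArg (fun M => M x y) h1
  simp only [Matrix.diagonal_mul, Matrix.one_apply] at h3
  rw [Matrix.diagonal_apply]
  have h4 := h2 x
  by_cases hxy : x = y
  · rw [if_pos hxy] at h3 ⊢
    field_simp
    linear_combination h3
  · rw [if_neg hxy] at h3 ⊢
    exact (mul_eq_zero.1 h3).resolve_left h4

omit [Fintype ι] in
/-- the coordinates of the terms under a diagonal symmetry -/
theorem diag_coord {g : Matrix.GeneralLinearGroup β F} {δ : β → F}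
    (hg : (g : Matrix β β F) = Matrix.diagonal δ) {σ : Equiv.Perm ι}
    (hσ : ∀ (q : ι) (A : Matrix α β F) (B : Matrix β γ F), term u v w (σ q) A B =
      term u v w q (A * (g : Matrix β β F)) (((g⁻¹ : Matrix.GeneralLinearGroup β F) :
        Matrix β β F) * B)) (q : ι) (a : α) (k l : β) (b : γ) (i : α) (j : γ) :
    u (σ q) a k * v (σ q) l b * w (σ q) i j =
      δ k * (δ l)⁻¹ * (u q a k * v q l b * w q i j) := by
  have hginv := diag_inv hg
  have h := congrArg (fun M => M i j) (hσ q (Matrix.single a k 1) (Matrix.single l b 1))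
  rw [term, term, Matrix.smul_apply, Matrix.smul_apply, form_single_mul,
    form_mul_single, form_single, form_single, smul_eq_mul, smul_eq_mul, hg, hginv] at h
  rw [h]
  have e1 : ∑ y, u q a y * Matrix.diagonal δ k y = u q a k * δ k := by
    rw [Finset.sum_eq_single k]
    · simp
    · intro y _ hy; simp [Matrix.diagonal_apply_ne _ hy.symm]
    · simp
  have e2 : ∑ x, v q x b * Matrix.diagonal (fun k => (δ k)⁻¹) x l = v q l b * (δ l)⁻¹ := by
    rw [Finset.sum_eq_single l]
    · simp
    · intro y _ hy; simp [Matrix.diagonal_apply_ne _ hy]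
    · simp
  rw [e1, e2]; ring

omit [DecidableEq β] in
theorem sum_dite_sub (P : β → Prop) [DecidablePred P] (f : {k // P k} → F) :
    ∑ k, (if h : P k then f ⟨k, h⟩ else 0) = ∑ k, f k := by
  have h1 : ∑ k ∈ Finset.univ.filter P, (fun k => if h : P k then f ⟨k, h⟩ else 0) k =
      ∑ k : {k // P k}, (fun k => if h : P k then f ⟨k, h⟩ else 0) (k : β) :=
    Finset.sum_subtype (Finset.univ.filter P) (p := P) (by simp)
    (fun k => if h : P k then f ⟨k, h⟩ else 0)
  have h2 : ∑ k : {k // P k}, f k = ∑ k : {k // P k},
      (fun k => if h : P k then f ⟨k, h⟩ else 0) (k : β) := by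
    apply Finset.sum_congr rfl
    intro k _
    simp [k.2]
  rw [h2, ← h1, Finset.sum_filter]
  apply Finset.sum_congr rfl
  intro k _
  by_cases hk : P k
  · simp [hk]
  · simp [hk]

variable [DecidableEq F]

omit [DecidableEq α] [DecidableEq β] [DecidableEq γ] in
/-- the restriction to one eigenspace -/
theorem class_step (hA : IsAlg u v w) (c : F) (δ : β → F) (A : Matrix α {k // δ k = c} F)
    (B : Matrix {k // δ k = c} γ F) :
    A * B = ∑ q, term (fun q => (u q).submatrix id (Subtype.val : {k // δ k = c} → β))
      (fun q => (v q).submatrix (Subtype.val : {k // δ k = c} → β) id) w q A B := by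
  let A' : Matrix α β F := Matrix.of fun a k => if h : δ k = c then A a ⟨k, h⟩ else 0
  let B' : Matrix β γ F := Matrix.of fun k b => if h : δ k = c then B ⟨k, h⟩ b else 0
  have hAB : A * B = A' * B' := by
    ext i j
    rw [Matrix.mul_apply, Matrix.mul_apply, ← sum_dite_sub]
    apply Finset.sum_congr rfl
    intro k _
    by_cases hk : δ k = c
    · simp [A', B', hk]
    · simp [A', B', hk]
  rw [hAB, hA]
  apply Finset.sum_congr rfl
  intro q _
  have e1 : form (u q) A' =
      form ((u q).submatrix id (Subtype.val : {k // δ k = c} → β)) A := by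
    unfold form
    apply Finset.sum_congr rfl
    intro x _
    rw [← sum_dite_sub]
    apply Finset.sum_congr rfl
    intro k _
    by_cases hk : δ k = c
    · simp [A', hk]
    · simp [A', hk]
  have e2 : form (v q) B' =
      form ((v q).submatrix (Subtype.val : {k // δ k = c} → β) id) B := by
    unfold form
    rw [← sum_dite_sub]
    apply Finset.sum_congr rfl
    intro k _
    by_cases hk : δ k = c
    · simp [B', hk]
    · simp [B', hk]
  rw [term, term, e1, e2]

/-- the eigenvalues for which the term `q` is nonzero -/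
noncomputable def spec (u : ι → Matrix α β F) (v : ι → Matrix β γ F) (w : ι → Matrix α γ F)
    (δ : β → F) (q : ι) : Finset F :=
  @Finset.filter F (fun c => (∃ a k, δ k = c ∧ u q a k ≠ 0) ∧
    (∃ l b, δ l = c ∧ v q l b ≠ 0) ∧ ∃ i j, w q i j ≠ 0) (Classical.decPred _)
    (Finset.univ.image δ)

omit [Fintype α] [Fintype γ] [Fintype ι] [DecidableEq α] [DecidableEq β] [DecidableEq γ] in
theorem mem_spec (δ : β → F) (q : ι) (c : F) : c ∈ spec u v w δ q ↔
    c ∈ Finset.univ.image δ ∧ (∃ a k, δ k = c ∧ u q a k ≠ 0) ∧
    (∃ l b, δ l = c ∧ v q l b ≠ 0) ∧ ∃ i j, w q i j ≠ 0 := by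
  unfold spec
  exact @Finset.mem_filter _ _ (Classical.decPred _) _ _

theorem spec_card_le {g : Matrix.GeneralLinearGroup β F} {δ : β → F}
    (hg : (g : Matrix β β F) = Matrix.diagonal δ) {σ : Equiv.Perm ι}
    (hσ : ∀ (q : ι) (A : Matrix α β F) (B : Matrix β γ F), term u v w (σ q) A B =
      term u v w q (A * (g : Matrix β β F)) (((g⁻¹ : Matrix.GeneralLinearGroup β F) :
        Matrix β β F) * B)) (q : ι) :
    (spec u v w δ q).card ≤ Function.minimalPeriod σ q := by
  by_cases hemp : spec u v w δ q = ∅
  · rw [hemp]; simp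
  obtain ⟨c0, hc0⟩ := Finset.nonempty_iff_ne_empty.2 hemp
  have hc0' := ((mem_spec _ _ _).1 hc0).2
  obtain ⟨_, ⟨l0, b0, hl0, hv0⟩, i0, j0, hw0⟩ := hc0'
  set n0 := Function.minimalPeriod σ q with hn0
  have hpos : 0 < n0 := by
    apply Function.minimalPeriod_pos_of_mem_periodicPts
    refine ⟨orderOf σ, orderOf_pos σ, ?_⟩
    rw [Function.IsPeriodicPt, Function.IsFixedPt, Equiv.Perm.iterate_eq_pow, pow_orderOf_eq_one]
    rfl
  have hper : (σ^[n0]) q = q := Function.iterate_minimalPeriod
  have hit : ∀ e : ℕ, ∀ (a : α) (k l : β) (b : γ) (i : α) (j : γ),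
      u (σ^[e] q) a k * v (σ^[e] q) l b * w (σ^[e] q) i j =
      (δ k * (δ l)⁻¹) ^ e * (u q a k * v q l b * w q i j) := by
    intro e
    induction e with
    | zero => intro a k l b i j; simp
    | succ e ih =>
      intro a k l b i j
      rw [Function.iterate_succ_apply', diag_coord hg hσ, ih, pow_succ]
      ring
  have hroot : ∀ c ∈ spec u v w δ q, (c * c0⁻¹) ^ n0 = 1 := by
    intro c hc
    obtain ⟨⟨a, k, hk, hu⟩, _⟩ := ((mem_spec _ _ _).1 hc).2
    have h1 := hit n0 a k l0 b0 i0 j0
    rw [hper, hk, hl0] at h1
    have h2 : u q a k * v q l0 b0 * w q i0 j0 ≠ 0 := mul_ne_zero (mul_ne_zero hu hv0) hw0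
    have h3 : ((c * c0⁻¹) ^ n0 - 1) * (u q a k * v q l0 b0 * w q i0 j0) = 0 := by
      linear_combination -h1
    have h4 := (mul_eq_zero.1 h3).resolve_right h2
    linear_combination h4
  have hc0ne : c0 ≠ 0 := by
    intro h
    have := hroot c0 hc0
    rw [h] at this
    simp [hpos.ne'] at this
  calc (spec u v w δ q).card ≤ (Polynomial.nthRootsFinset n0 (1 : F)).card := by
        apply Finset.card_le_card_of_injOn (fun c => c * c0⁻¹)
        · intro c hc
          simp only [Finset.mem_coe] at hc ⊢
          rw [Polynomial.mem_nthRootsFinset hpos]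
          exact hroot c hc
        · intro c _ c' _ h
          exact mul_right_cancel₀ (inv_ne_zero hc0ne) h
    _ ≤ n0 := by
        rw [Polynomial.nthRootsFinset]
        exact (@Multiset.toFinset_card_le _ (Classical.decEq F) _).trans
          (Polynomial.card_nthRoots n0 1)

theorem lower_diag (hA : IsAlg u v w) {g : Matrix.GeneralLinearGroup β F} {δ : β → F}
    (hg : (g : Matrix β β F) = Matrix.diagonal δ) (hI : InnerInvariant g u v w) :
    ∑ c ∈ Finset.univ.image δ, rank F (Fintype.card α) (Fintype.card {k // δ k = c})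
      (Fintype.card γ) ≤ Fintype.card ι := by
  classical
  obtain ⟨σ, hσ⟩ := hI
  let S : Setoid ι := Equiv.Perm.SameCycle.setoid σ
  let Q := Quotient S
  let fib : Q → Finset ι := fun X => Finset.univ.filter (fun q => Quotient.mk S q = X)
  -- sizes of the classes
  have hfib : ∀ X : Q, Function.minimalPeriod σ X.out ≤ (fib X).card := by
    intro X
    calc Function.minimalPeriod σ X.out = (Finset.range (Function.minimalPeriod σ X.out)).card := by
          simp
      _ ≤ (fib X).card := by
          apply Finset.card_le_card_of_injOn (fun e => σ^[e] X.out)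
          · intro e _
            simp only [fib, Finset.coe_filter, Finset.mem_univ, true_and, Set.mem_ofPred_eq]
            conv_rhs => rw [← Quotient.out_eq X]
            apply Quotient.sound
            show Equiv.Perm.SameCycle σ _ _
            rw [Equiv.Perm.iterate_eq_pow]
            exact Equiv.Perm.sameCycle_pow_left.2 (Equiv.Perm.SameCycle.refl _ _)
          · have := Function.iterate_injOn_Iio_minimalPeriod (f := σ) (x := X.out)
            rw [Finset.coe_range]
            exact this
  have hspec : ∀ X : Q, (spec u v w δ X.out).card ≤ (fib X).card := fun X =>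
    (spec_card_le hg hσ X.out).trans (hfib X)
  -- the restricted terms are constant on classes
  have hconst : ∀ (c : F) (q : ι) (a : α) (k l : β) (b : γ) (i : α) (j : γ), δ k = c → δ l = c →
      u (σ q) a k * v (σ q) l b * w (σ q) i j = u q a k * v q l b * w q i j := by
    intro c q a k l b i j hk hl
    have hne := diag_ne_zero hg k
    rw [diag_coord hg hσ, hl, ← hk, mul_inv_cancel₀ hne, one_mul]
  have hclass : ∀ c ∈ Finset.univ.image δ, rank F (Fintype.card α) (Fintype.card {k // δ k = c})
      (Fintype.card γ) ≤ Fintype.card {X : Q // c ∈ spec u v w δ X.out} := by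
    intro c hc
    let uc : ι → Matrix α {k // δ k = c} F := fun q => (u q).submatrix id Subtype.val
    let vc : ι → Matrix {k // δ k = c} γ F := fun q => (v q).submatrix Subtype.val id
    have hexp : ∀ (q : ι) (A : Matrix α {k // δ k = c} F) (B : Matrix {k // δ k = c} γ F)
        (i : α) (j : γ), term uc vc w q A B i j = ∑ a, ∑ k : {k // δ k = c},
          ∑ l : {k // δ k = c}, ∑ b, (u q a k * v q l b * w q i j) * (A a k * B l b) := by
      intro q A B i j
      simp only [term, form, uc, vc, Matrix.smul_apply, smul_eq_mul, Matrix.submatrix_apply, id]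
      rw [Finset.sum_mul, Finset.sum_mul]
      apply Finset.sum_congr rfl; intro a _
      rw [Finset.sum_mul, Finset.sum_mul]
      apply Finset.sum_congr rfl; intro k _
      rw [Finset.mul_sum, Finset.sum_mul]
      apply Finset.sum_congr rfl; intro l _
      rw [Finset.mul_sum, Finset.sum_mul]
      apply Finset.sum_congr rfl; intro b _
      ring
    have hinv : ∀ (q : ι) (A : Matrix α {k // δ k = c} F) (B : Matrix {k // δ k = c} γ F),
        term uc vc w (σ q) A B = term uc vc w q A B := by
      intro q A B
      ext i j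
      rw [hexp, hexp]
      apply Finset.sum_congr rfl; intro a _
      apply Finset.sum_congr rfl; intro k _
      apply Finset.sum_congr rfl; intro l _
      apply Finset.sum_congr rfl; intro b _
      rw [hconst c q a k l b i j k.2 l.2]
    have hsame : ∀ (X : Q) (q : ι), q ∈ fib X →
        ∀ (A : Matrix α {k // δ k = c} F) (B : Matrix {k // δ k = c} γ F),
        term uc vc w q A B = term uc vc w X.out A B := by
      intro X q hq A B
      simp only [fib, Finset.mem_filter, Finset.mem_univ, true_and] at hq
      have h1 : Equiv.Perm.SameCycle σ X.out q := by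
        have h2 : Quotient.mk S X.out = Quotient.mk S q := by rw [Quotient.out_eq, hq]
        exact @Quotient.exact _ S _ _ h2
      obtain ⟨e, -, he⟩ := h1.exists_pow_eq'
      rw [← he]
      clear he
      induction e with
      | zero => rfl
      | succ e ih => rw [pow_succ', Equiv.Perm.mul_apply, hinv, ih]
    have hzero : ∀ (q : ι), c ∉ spec u v w δ q →
        ∀ (A : Matrix α {k // δ k = c} F) (B : Matrix {k // δ k = c} γ F),
        term uc vc w q A B = 0 := by
      intro q hq A B
      ext i j
      rw [hexp]
      apply Finset.sum_eq_zero; intro a _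
      apply Finset.sum_eq_zero; intro k _
      apply Finset.sum_eq_zero; intro l _
      apply Finset.sum_eq_zero; intro b _
      by_contra hne
      apply hq
      have h1 : u q a k * v q l b * w q i j ≠ 0 := left_ne_zero_of_mul hne
      refine (mem_spec _ _ _).2 ⟨hc, ⟨a, k, k.2, ?_⟩, ⟨l, b, l.2, ?_⟩, i, j, ?_⟩
      · exact left_ne_zero_of_mul (left_ne_zero_of_mul h1)
      · exact right_ne_zero_of_mul (left_ne_zero_of_mul h1)
      · exact right_ne_zero_of_mul h1
    have halg : IsAlg (fun X : {X : Q // c ∈ spec u v w δ X.out} => uc X.1.out)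
        (fun X => vc X.1.out) (fun X => ((fib X.1).card : F) • w X.1.out) := by
      intro A B
      rw [class_step hA c δ A B]
      have h1 : ∀ X : {X : Q // c ∈ spec u v w δ X.out},
          term (fun X : {X : Q // c ∈ spec u v w δ X.out} => uc X.1.out)
          (fun X => vc X.1.out) (fun X => ((fib X.1).card : F) • w X.1.out) X A B =
          ∑ q ∈ fib X.1, term uc vc w q A B := by
        intro X
        rw [Finset.sum_congr rfl (fun q hq => hsame X.1 q hq A B), Finset.sum_const]
        simp only [term]
        rw [← Nat.cast_smul_eq_nsmul F, smul_smul, smul_smul, mul_comm]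
      simp only [h1]
      have h2 : ∑ q, term uc vc w q A B = ∑ X : Q, ∑ q ∈ fib X, term uc vc w q A B := by
        rw [Finset.sum_fiberwise]
      refine h2.trans ?_
      have h3 : ∑ X : Q, ∑ q ∈ fib X, term uc vc w q A B =
          ∑ X ∈ Finset.univ.filter (fun X : Q => c ∈ spec u v w δ X.out),
            ∑ q ∈ fib X, term uc vc w q A B := by
        symm
        apply Finset.sum_subset (Finset.subset_univ _)
        intro X _ hX
        apply Finset.sum_eq_zero
        intro q hq
        rw [hsame X q hq]
        apply hzero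
        simpa using hX
      rw [h3]
      exact Finset.sum_subtype _ (by simp) _
    exact halg.rank_le
  calc (∑ c ∈ Finset.univ.image δ, rank F (Fintype.card α) (Fintype.card {k // δ k = c})
        (Fintype.card γ))
      ≤ ∑ c ∈ Finset.univ.image δ, Fintype.card {X : Q // c ∈ spec u v w δ X.out} :=
        Finset.sum_le_sum (fun c hc => hclass c hc)
    _ = ∑ c ∈ Finset.univ.image δ, ∑ X : Q, if c ∈ spec u v w δ X.out then 1 else 0 := by
        apply Finset.sum_congr rfl
        intro c _
        rw [Fintype.card_subtype, Finset.card_filter]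
    _ = ∑ X : Q, ∑ c ∈ Finset.univ.image δ, if c ∈ spec u v w δ X.out then 1 else 0 :=
        Finset.sum_comm
    _ ≤ ∑ X : Q, (fib X).card := by
        apply Finset.sum_le_sum
        intro X _
        refine le_trans ?_ (hspec X)
        rw [← Finset.card_filter]
        apply Finset.card_le_card
        intro c hc
        exact (Finset.mem_filter.1 hc).2
    _ = Fintype.card ι := by
        rw [← Finset.card_univ (α := ι)]
        exact (Finset.card_eq_sum_card_fiberwise (fun q _ => Finset.mem_coe.2
          (Finset.mem_univ (Quotient.mk S q)))).symm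

omit [DecidableEq α] [DecidableEq γ] in
/-- direct sums of algorithms for the eigenspaces -/
theorem upper_diag {g : Matrix.GeneralLinearGroup β F} {δ : β → F}
    (hg : (g : Matrix β β F) = Matrix.diagonal δ) (κ : F → Type) [∀ c, Fintype (κ c)]
    (uc : ∀ c, κ c → Matrix α {k // δ k = c} F) (vc : ∀ c, κ c → Matrix {k // δ k = c} γ F)
    (wc : ∀ c, κ c → Matrix α γ F) (hc : ∀ c, IsAlg (uc c) (vc c) (wc c)) :
    ∃ (u : (Σ c : {c // c ∈ Finset.univ.image δ}, κ c.1) → Matrix α β F)
      (v : (Σ c : {c // c ∈ Finset.univ.image δ}, κ c.1) → Matrix β γ F)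
      (w : (Σ c : {c // c ∈ Finset.univ.image δ}, κ c.1) → Matrix α γ F),
      IsAlg u v w ∧ InnerInvariant g u v w := by
  let u : (Σ c : {c // c ∈ Finset.univ.image δ}, κ c.1) → Matrix α β F :=
    fun q => Matrix.of fun a k => if h : δ k = q.1.1 then uc q.1.1 q.2 a ⟨k, h⟩ else 0
  let v : (Σ c : {c // c ∈ Finset.univ.image δ}, κ c.1) → Matrix β γ F :=
    fun q => Matrix.of fun k b => if h : δ k = q.1.1 then vc q.1.1 q.2 ⟨k, h⟩ b else 0
  let w : (Σ c : {c // c ∈ Finset.univ.image δ}, κ c.1) → Matrix α γ F :=
    fun q => wc q.1.1 q.2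
  have e1 : ∀ q (A : Matrix α β F), form (u q) A =
      form (uc q.1.1 q.2) (A.submatrix id (Subtype.val : {k // δ k = q.1.1} → β)) := by
    intro q A
    unfold form
    apply Finset.sum_congr rfl; intro a _
    rw [← sum_dite_sub]
    apply Finset.sum_congr rfl; intro k _
    by_cases hk : δ k = q.1.1
    · simp [u, hk]
    · simp [u, hk]
  have e2 : ∀ q (B : Matrix β γ F), form (v q) B =
      form (vc q.1.1 q.2) (B.submatrix (Subtype.val : {k // δ k = q.1.1} → β) id) := by
    intro q B
    unfold form
    rw [← sum_dite_sub]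
    apply Finset.sum_congr rfl; intro k _
    by_cases hk : δ k = q.1.1
    · simp [v, hk]
    · simp [v, hk]
  refine ⟨u, v, w, ?_, ⟨1, ?_⟩⟩
  · intro A B
    rw [Fintype.sum_sigma]
    have h1 : ∀ c : {c // c ∈ Finset.univ.image δ}, ∑ x : κ c.1, term u v w ⟨c, x⟩ A B =
        (A.submatrix id (Subtype.val : {k // δ k = c.1} → β)) *
        (B.submatrix (Subtype.val : {k // δ k = c.1} → β) id) := by
      intro c
      rw [hc c.1]
      apply Finset.sum_congr rfl
      intro x _
      rw [term, term, e1, e2]
    simp only [h1]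
    ext i j
    rw [Matrix.sum_apply, Matrix.mul_apply]
    simp only [Matrix.mul_apply, Matrix.submatrix_apply, id]
    have h2 : ∀ c : {c // c ∈ Finset.univ.image δ}, ∑ k : {k // δ k = c.1}, A i k * B k j =
        ∑ k, if δ k = c.1 then A i k * B k j else 0 := by
      intro c
      rw [← sum_dite_sub]
      apply Finset.sum_congr rfl; intro k _
      by_cases hk : δ k = c.1
      · simp [hk]
      · simp [hk]
    simp only [h2]
    rw [Finset.sum_comm]
    apply Finset.sum_congr rfl
    intro k _
    rw [Finset.sum_eq_single ⟨δ k, Finset.mem_image_of_mem _ (Finset.mem_univ k)⟩]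
    · simp
    · intro c _ hne
      rw [if_neg]
      intro h
      exact hne (Subtype.ext h.symm)
    · simp
  · intro q A B
    have hne : ∀ k, δ k ≠ 0 := diag_ne_zero hg
    obtain ⟨k0, -, hk0⟩ := Finset.mem_image.1 q.1.2
    have hq0 : q.1.1 ≠ 0 := by rw [← hk0]; exact hne k0
    have hginv : ((g⁻¹ : Matrix.GeneralLinearGroup β F) : Matrix β β F) =
        Matrix.diagonal (fun k => (δ k)⁻¹) := diag_inv hg
    have h1 : form (u q) (A * (g : Matrix β β F)) = q.1.1 * form (u q) A := by
      rw [hg, form, form, Finset.mul_sum]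
      apply Finset.sum_congr rfl; intro a _
      rw [Finset.mul_sum]
      apply Finset.sum_congr rfl; intro k _
      rw [Matrix.mul_diagonal]
      by_cases hk : δ k = q.1.1
      · rw [hk]; ring
      · simp [u, hk]
    have h2 : form (v q) (((g⁻¹ : Matrix.GeneralLinearGroup β F) : Matrix β β F) * B) =
        (q.1.1)⁻¹ * form (v q) B := by
      rw [hginv, form, form, Finset.mul_sum]
      apply Finset.sum_congr rfl; intro k _
      rw [Finset.mul_sum]
      apply Finset.sum_congr rfl; intro b _
      rw [Matrix.diagonal_mul]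
      by_cases hk : δ k = q.1.1
      · rw [hk]; ring
      · simp [v, hk]
    rw [Equiv.Perm.one_apply, term, term, h1, h2]
    congr 1
    field_simp

omit [DecidableEq α] [DecidableEq γ] [DecidableEq F] in
theorem to_fin {g : Matrix.GeneralLinearGroup β F} (hA : IsAlg u v w)
    (hI : InnerInvariant g u v w) (N : ℕ) (hN : Fintype.card ι = N) :
    ∃ (u : Fin N → Matrix α β F) (v : Fin N → Matrix β γ F) (w : Fin N → Matrix α γ F),
      IsAlg u v w ∧ InnerInvariant g u v w := by
  let e := (Fintype.equivFinOfCardEq hN).symm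
  exact ⟨_, _, _, hA.reindex (Equiv.refl _) (Equiv.refl _) (Equiv.refl _) e, hI.reindex e⟩

omit [DecidableEq α] [DecidableEq γ] in
/-- direct sums of algorithms for the eigenspaces, with the multiplications numbered -/
theorem upper_diag' {g : Matrix.GeneralLinearGroup β F} {δ : β → F}
    (hg : (g : Matrix β β F) = Matrix.diagonal δ) (κ : F → Type) [∀ c, Fintype (κ c)]
    (uc : ∀ c, κ c → Matrix α {k // δ k = c} F) (vc : ∀ c, κ c → Matrix {k // δ k = c} γ F)
    (wc : ∀ c, κ c → Matrix α γ F) (hc : ∀ c, IsAlg (uc c) (vc c) (wc c)) (N : ℕ)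
    (hN : ∑ c ∈ Finset.univ.image δ, Fintype.card (κ c) = N) :
    ∃ (u : Fin N → Matrix α β F) (v : Fin N → Matrix β γ F) (w : Fin N → Matrix α γ F),
      IsAlg u v w ∧ InnerInvariant g u v w := by
  rw [← hN]
  obtain ⟨u, v, w, hA, hI⟩ := upper_diag hg κ uc vc wc hc
  refine to_fin hA hI _ ?_
  refine Fintype.card_sigma.trans ?_
  rw [← Finset.attach_eq_univ]
  exact Finset.sum_attach (Finset.univ.image δ) (fun c => Fintype.card (κ c))

omit [DecidableEq α] [DecidableEq γ] [DecidableEq F] in
/-- conjugation of algorithms -/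
theorem conj_alg (h g : Matrix.GeneralLinearGroup β F) (hA : IsAlg u v w)
    (hI : InnerInvariant g u v w) :
    ∃ (u' : ι → Matrix α β F) (v' : ι → Matrix β γ F),
      IsAlg u' v' w ∧ InnerInvariant (h⁻¹ * g * h) u' v' w := by
  have e1 : ∀ (M A : Matrix α β F) (N : Matrix β β F),
      form (M * N.transpose) A = form M (A * N) := by
    intro M A N
    simp only [form, Matrix.mul_apply, Matrix.transpose_apply, Finset.sum_mul, Finset.mul_sum]
    apply Finset.sum_congr rfl; intro a _
    rw [Finset.sum_comm]
    apply Finset.sum_congr rfl; intro k _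
    apply Finset.sum_congr rfl; intro l _
    ring
  have e2 : ∀ (M B : Matrix β γ F) (N : Matrix β β F),
      form (N.transpose * M) B = form M (N * B) := by
    intro M B N
    simp only [form, Matrix.mul_apply, Matrix.transpose_apply, Finset.sum_mul, Finset.mul_sum]
    rw [Finset.sum_comm]
    rw [Finset.sum_congr rfl (fun b _ => Finset.sum_comm)]
    rw [Finset.sum_comm]
    apply Finset.sum_congr rfl; intro a _
    apply Finset.sum_congr rfl; intro k _
    apply Finset.sum_congr rfl; intro l _
    ring
  let h' : Matrix β β F := ((h⁻¹ : Matrix.GeneralLinearGroup β F) : Matrix β β F)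
  have hh : h' * (h : Matrix β β F) = 1 := by
    show ((h⁻¹ : Matrix.GeneralLinearGroup β F) : Matrix β β F) * (h : Matrix β β F) = 1
    rw [← Units.val_mul]; simp
  have hh2 : (h : Matrix β β F) * h' = 1 := by
    show (h : Matrix β β F) * ((h⁻¹ : Matrix.GeneralLinearGroup β F) : Matrix β β F) = 1
    rw [← Units.val_mul]; simp
  refine ⟨fun q => u q * h'.transpose, fun q => (h : Matrix β β F).transpose * v q, ?_, ?_⟩
  · intro A B
    have := hA (A * h') ((h : Matrix β β F) * B)
    have h3 : A * h' * ((h : Matrix β β F) * B) = A * B := by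
      rw [Matrix.mul_assoc, ← Matrix.mul_assoc h', hh, Matrix.one_mul]
    rw [h3] at this
    rw [this]
    apply Finset.sum_congr rfl; intro q _
    simp only [term, e1, e2]
  · obtain ⟨σ, hσ⟩ := hI
    refine ⟨σ, ?_⟩
    intro q A B
    have := hσ q (A * h') ((h : Matrix β β F) * B)
    simp only [term, e1, e2] at this ⊢
    rw [this]
    congr 3
    · simp only [Units.val_mul, Matrix.mul_assoc]
      rw [hh2, Matrix.mul_one]
    · rw [← Matrix.mul_assoc, ← Matrix.mul_assoc, ← Units.val_mul, ← Units.val_mul]
      congr 2
      group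

end Diagonal

open Classical in
/-- Let `n, m, p` be natural numbers and consider bilinear algorithms for the product of an
`n × m` matrix and an `m × p` matrix over `F`.
(1) If the algorithm is invariant under the inner symmetries `(A, B) ↦ (A g, g⁻¹ B)` for all `g`
in a subgroup `G` of `GL_m(F)` with commutative commutant, it has at least `n m p` multiplications.
(2) For a diagonalizable `g` in `GL_m(F)`, the least number of multiplications of an algorithm
invariant under the one inner symmetry given by `g` is the sum, over the eigenvalues `c` of `g`,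
of the least number of multiplications of an algorithm for the product of an `n × s_c` matrix and
an `s_c × p` matrix, `s_c` the multiplicity of `c`; and this is at least `n p` times the number of
distinct eigenvalues. -/
theorem result (F : Type*) [Field F] (n m p : ℕ) :
    (∀ G : Subgroup (Matrix.GeneralLinearGroup (Fin m) F), CommutantComm G →
      ∀ (r : ℕ) (u : Fin r → Matrix (Fin n) (Fin m) F) (v : Fin r → Matrix (Fin m) (Fin p) F)
        (w : Fin r → Matrix (Fin n) (Fin p) F), IsAlg u v w →
        (∀ g ∈ G, InnerInvariant g u v w) → n * m * p ≤ r) ∧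
    (∀ (g h : Matrix.GeneralLinearGroup (Fin m) F) (δ : Fin m → F),
      ((h⁻¹ * g * h : Matrix.GeneralLinearGroup (Fin m) F) : Matrix (Fin m) (Fin m) F) =
        Matrix.diagonal δ →
      IsLeast {r : ℕ | ∃ (u : Fin r → Matrix (Fin n) (Fin m) F)
        (v : Fin r → Matrix (Fin m) (Fin p) F) (w : Fin r → Matrix (Fin n) (Fin p) F),
          IsAlg u v w ∧ InnerInvariant g u v w}
        (∑ c ∈ Finset.univ.image δ, rank F n (Fintype.card {k // δ k = c}) p) ∧
      (Finset.univ.image δ).card * (n * p) ≤
        ∑ c ∈ Finset.univ.image δ, rank F n (Fintype.card {k // δ k = c}) p) := by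
  refine ⟨?_, ?_⟩
  · intro G hG r u v w hA hI
    have := lower_commutant hA hG hI
    simp only [Fintype.card_fin] at this
    calc n * m * p = n * p * m := by ring
      _ ≤ r := this
  · intro g h δ hg
    refine ⟨⟨?_, ?_⟩, ?_⟩
    · -- upper bound
      have hc : ∀ c : F, ∃ (uc : Fin (rank F n (Fintype.card {k // δ k = c}) p) →
            Matrix (Fin n) {k // δ k = c} F)
          (vc : Fin (rank F n (Fintype.card {k // δ k = c}) p) →
            Matrix {k // δ k = c} (Fin p) F)
          (wc : Fin (rank F n (Fintype.card {k // δ k = c}) p) → Matrix (Fin n) (Fin p) F),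
          IsAlg uc vc wc := by
        intro c
        obtain ⟨u, v, w, hA⟩ := rank_spec F n (Fintype.card {k // δ k = c}) p
        exact ⟨_, _, _, hA.reindex (Equiv.refl _) (Fintype.equivFin {k // δ k = c})
          (Equiv.refl _) (Equiv.refl _)⟩
      choose uc vc wc hc using hc
      obtain ⟨u, v, w, hA, hI⟩ := upper_diag' hg
        (fun c => Fin (rank F n (Fintype.card {k // δ k = c}) p)) uc vc wc hc
        (∑ c ∈ Finset.univ.image δ, rank F n (Fintype.card {k // δ k = c}) p) (by simp)
      obtain ⟨u', v', hA', hI'⟩ := conj_alg h⁻¹ _ hA hI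
      have hgg : h⁻¹⁻¹ * (h⁻¹ * g * h) * h⁻¹ = g := by group
      rw [hgg] at hI'
      exact ⟨_, _, _, hA', hI'⟩
    · rintro r ⟨u, v, w, hA, hI⟩
      obtain ⟨u', v', hA', hI'⟩ := conj_alg h _ hA hI
      have := lower_diag hA' hg hI'
      simp only [Fintype.card_fin] at this
      exact this
    · rw [← smul_eq_mul, ← Finset.sum_const]
      apply Finset.sum_le_sum
      intro c hc
      apply mul_le_rank
      obtain ⟨k, -, hk⟩ := Finset.mem_image.1 hc
      exact Fintype.card_pos_iff.2 ⟨⟨k, hk⟩⟩

end Pool.Agent.Results.MP_e72dc0_lc.InnerSymmetry
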