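import Mathlib
import Pool.Agent.H522R2.Circuit
import Pool.Agent.H522R2.Bilinear

namespace Pool.Agent.Results.MP_e72dc0_lc.RankSum

open Pool.Agent.H522R2
open Pool.Agent.H522R2.Circuit

/-- the variables: the entries `a_{ik}` (left summand) and `b_{kj}` (right summand) -/
abbrev Vars (m : ℕ) : Type := (Fin m × Fin m) ⊕ (Fin m × Fin m)

/-- The entry `c_{ij} = ∑ k, a_{ik} b_{kj}` of the product of two generic `m × m` matrices. -/
noncomputable def entry (F : Type*) [Field F] (m : ℕ) (i j : Fin m) : MvPolynomial (Vars m) F :=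
  ∑ k : Fin m, MvPolynomial.X (Sum.inl (i, k)) * MvPolynomial.X (Sum.inr (k, j))

/-- The coefficient matrix of the part of the polynomial computed at a node which is linear in the
entries of the first matrix: its `(x, y)` entry is the coefficient of `a_{xy}`. -/
noncomputable def linA {F : Type*} [Field F] {m : ℕ} (C : Circuit F (Vars m))
    (k : Fin C.nodes) : Matrix (Fin m) (Fin m) F :=
  Matrix.of fun x y => MvPolynomial.coeff (Finsupp.single (Sum.inl (x, y)) 1) (C.poly k)

/-- The same for the entries `b_{xy}` of the second matrix. -/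
noncomputable def linB {F : Type*} [Field F] {m : ℕ} (C : Circuit F (Vars m))
    (k : Fin C.nodes) : Matrix (Fin m) (Fin m) F :=
  Matrix.of fun x y => MvPolynomial.coeff (Finsupp.single (Sum.inr (x, y)) 1) (C.poly k)

/-- the first input of a multiplication gate -/
def lft {F V : Type*} (C : Circuit F V) (k : Fin C.nodes) : Fin C.nodes :=
  match C.gate k with
  | .mul i _ => C.up k i
  | _ => k

/-- the second input of a multiplication gate -/
def rgt {F V : Type*} (C : Circuit F V) (k : Fin C.nodes) : Fin C.nodes :=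
  match C.gate k with
  | .mul _ j => C.up k j
  | _ => k

/-- The number of nonzero values of `f`. -/
noncomputable def nnz {F α : Type*} [Zero F] (f : α → F) : ℕ := Nat.card {x // f x ≠ 0}

/-- A quadratic algorithm with `r` multiplications for the product of two `m × m` matrices: the
`g`-th multiplication is the product of two linear forms, with coefficients `l g` and `l' g`, in the
`2m²` variables, and `c_ij` is the linear combination of the results with coefficients `w i j`. -/
def IsQuadAlg {F : Type*} [Field F] {m r : ℕ} (l l' : Fin r → Vars m → F)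
    (w : Fin m → Fin m → Fin r → F) : Prop :=
  ∀ i j, entry F m i j = ∑ g, MvPolynomial.C (w i j g) *
    ((∑ x, MvPolynomial.C (l g x) * MvPolynomial.X x) *
      (∑ x, MvPolynomial.C (l' g x) * MvPolynomial.X x))

/-- The number of additions and nonscalar multiplications used to compute the products when each
linear form is evaluated separately: a form with `k ≥ 1` nonzero coefficients takes `k - 1`
additions. -/
noncomputable def productCost {F : Type*} [Field F] {m r : ℕ} (l l' : Fin r → Vars m → F) : ℕ :=
  ∑ g, ((nnz (l g) - 1) + (nnz (l' g) - 1) + 1)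

/-- The total number of additions and nonscalar multiplications when each linear form in the
variables and each `c_ij` is evaluated separately. -/
noncomputable def directCost {F : Type*} [Field F] {m r : ℕ} (l l' : Fin r → Vars m → F)
    (w : Fin m → Fin m → Fin r → F) : ℕ :=
  productCost l l' + ∑ i, ∑ j, (nnz (w i j) - 1)

section Flattening

variable {F : Type*} [Field F] {m : ℕ} {S : Type*} [Fintype S]

/-- the flattening bound -/
theorem cube_le_sum_rank (U V W : S → Matrix (Fin m) (Fin m) F)
    (h : ∀ i k k' j i' j', ∑ s, U s i k * V s k' j * W s i' j' =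
      if k = k' ∧ i = i' ∧ j = j' then 1 else 0) :
    m ^ 3 ≤ ∑ s, (U s).rank := by
  classical
  let Ψ : (Fin m × Fin m × Fin m → F) →ₗ[F]
      ((s : S) → LinearMap.range (U s).mulVecLin) :=
    LinearMap.pi (fun s => (U s).mulVecLin.rangeRestrict ∘ₗ
      (LinearMap.pi (fun k => ∑ x : Fin m × Fin m, W s x.1 x.2 • LinearMap.proj (k, x))))
  have hΨ : ∀ z s i, ((Ψ z s : LinearMap.range (U s).mulVecLin) : Fin m → F) i =
      ∑ k, U s i k * ∑ x : Fin m × Fin m, W s x.1 x.2 * z (k, x) := by
    intro z s i
    simp [Ψ, Matrix.mulVec, dotProduct, LinearMap.sum_apply]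
  have hinj : Function.Injective Ψ := by
    rw [← LinearMap.ker_eq_bot, LinearMap.ker_eq_bot']
    intro z hz
    funext x
    obtain ⟨k', i, j⟩ := x
    have h1 : ∀ s, ∑ k, U s i k * ∑ x : Fin m × Fin m, W s x.1 x.2 * z (k, x) = 0 := by
      intro s
      rw [← hΨ, hz]
      rfl
    have h2 : z (k', i, j) = ∑ k, ∑ x : Fin m × Fin m,
        (∑ s, U s i k * V s k' j * W s x.1 x.2) * z (k, x) := by
      rw [Finset.sum_eq_single k']
      · rw [Finset.sum_eq_single (i, j)]
        · rw [h]; simp
        · intro x _ hx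
          rw [h, if_neg, zero_mul]
          rintro ⟨_, h3, h4⟩
          exact hx (Prod.ext h3.symm h4.symm)
        · simp
      · intro k _ hk
        apply Finset.sum_eq_zero
        intro x _
        rw [h, if_neg, zero_mul]
        rintro ⟨h3, _⟩
        exact hk h3
      · simp
    have h3 : ∑ k, ∑ x : Fin m × Fin m, (∑ s, U s i k * V s k' j * W s x.1 x.2) * z (k, x) =
        ∑ s, V s k' j * ∑ k, U s i k * ∑ x : Fin m × Fin m, W s x.1 x.2 * z (k, x) := by
      have e1 : ∀ k, ∑ x : Fin m × Fin m, (∑ s, U s i k * V s k' j * W s x.1 x.2) * z (k, x) =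
          ∑ s, ∑ x : Fin m × Fin m, (U s i k * V s k' j * W s x.1 x.2) * z (k, x) := by
        intro k
        rw [Finset.sum_comm]
        apply Finset.sum_congr rfl; intro x _
        rw [Finset.sum_mul]
      simp only [e1]
      rw [Finset.sum_comm]
      apply Finset.sum_congr rfl; intro s _
      rw [Finset.mul_sum]
      apply Finset.sum_congr rfl; intro k _
      rw [Finset.mul_sum, Finset.mul_sum]
      apply Finset.sum_congr rfl; intro x _
      ring
    rw [h2, h3]
    apply Finset.sum_eq_zero
    intro s _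
    rw [h1, mul_zero]
  have h4 := LinearMap.finrank_le_finrank_of_injective hinj
  have h5 : Module.finrank F (Fin m × Fin m × Fin m → F) = m ^ 3 := by
    simp only [Module.finrank_fintype_fun_eq_card, Fintype.card_prod, Fintype.card_fin]
    ring
  have h6 : Module.finrank F ((s : S) → LinearMap.range (U s).mulVecLin) =
      ∑ s, (U s).rank := Module.finrank_pi_fintype F
  rw [h5, h6] at h4
  exact h4

theorem cube_le_sum_rank' (U V W : S → Matrix (Fin m) (Fin m) F)
    (h : ∀ i k k' j i' j', ∑ s, U s i k * V s k' j * W s i' j' =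
      if k = k' ∧ i = i' ∧ j = j' then 1 else 0) :
    m ^ 3 ≤ ∑ s, (V s).rank := by
  have h1 := cube_le_sum_rank (fun s => (V s).transpose) (fun s => (U s).transpose)
    (fun s => (W s).transpose) (by
      intro i k k' j i' j'
      simp only [Matrix.transpose_apply]
      have h2 : ∑ s, V s k i * U s j k' * W s j' i' = ∑ s, U s j k' * V s k i * W s j' i' := by
        apply Finset.sum_congr rfl; intro s _; ring
      rw [h2, h]
      congr 1
      simp only [eq_iff_iff]
      constructor
      · rintro ⟨h3, h4, h5⟩; exact ⟨h3.symm, h5, h4⟩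
      · rintro ⟨h3, h4, h5⟩; exact ⟨h3.symm, h5, h4⟩)
  simpa only [Matrix.rank_transpose] using h1

/-- the same for the third factor -/
theorem cube_le_sum_rank'' (U V W : S → Matrix (Fin m) (Fin m) F)
    (h : ∀ i k k' j i' j', ∑ s, U s i k * V s k' j * W s i' j' =
      if k = k' ∧ i = i' ∧ j = j' then 1 else 0) :
    m ^ 3 ≤ ∑ s, (W s).rank := by
  apply cube_le_sum_rank W (fun s => (V s).transpose) U
  intro i k k' j i' j'
  simp only [Matrix.transpose_apply]
  have h2 : ∑ s, W s i k * V s j k' * U s i' j' = ∑ s, U s i' j' * V s j k' * W s i k := by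
    apply Finset.sum_congr rfl; intro s _; ring
  rw [h2, h]
  congr 1
  simp only [eq_iff_iff]
  constructor
  · rintro ⟨h3, h4, h5⟩; exact ⟨h5.symm, h4.symm, h3.symm⟩
  · rintro ⟨h3, h4, h5⟩; exact ⟨h5.symm, h4.symm, h3.symm⟩

theorem rank_le_nnz (M : Matrix (Fin m) (Fin m) F) :
    M.rank ≤ nnz (fun x : Fin m × Fin m => M x.1 x.2) := by
  classical
  have h1 : nnz (fun x : Fin m × Fin m => M x.1 x.2) =
      (Finset.univ.filter (fun x : Fin m × Fin m => M x.1 x.2 ≠ 0)).card := by
    unfold nnz
    rw [Nat.card_eq_fintype_card, Fintype.card_subtype]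
  rw [h1]
  refine le_trans (Matrix.rank_le_card_of_support_subset _
    ((Finset.univ.filter (fun x : Fin m × Fin m => M x.1 x.2 ≠ 0)).image Prod.fst) ?_)
    Finset.card_image_le
  intro x hx
  rw [Finset.mem_coe, Finset.mem_image]
  by_contra hcon
  push Not at hcon
  apply hx
  funext y
  by_contra hne
  exact hcon (x, y) (Finset.mem_filter.2 ⟨Finset.mem_univ _, hne⟩) rfl

end Flattening

section Expansion

variable {F : Type*} [Field F] {m : ℕ}

open Classical in
theorem jQ_expand (C : Circuit F (Vars m)) (k : Fin C.nodes) : ∃ W : {g // C.IsNonscalar g} → F,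
    ∀ a b, jQ C a b k = ∑ g : {g // C.IsNonscalar g}, W g *
      (jA C (lft C g) a * jB C (rgt C g) b + jA C (rgt C g) a * jB C (lft C g) b) := by
  obtain ⟨k, hk⟩ := k
  induction k using Nat.strong_induction_on with
  | _ k ih =>
    cases h : C.gate ⟨k, hk⟩ with
    | var x => exact ⟨0, fun a b => by rw [jQ, h]; simp⟩
    | const c => exact ⟨0, fun a b => by rw [jQ, h]; simp⟩
    | add i j =>
      obtain ⟨W1, h1⟩ := ih i i.2 (i.2.trans hk)
      obtain ⟨W2, h2⟩ := ih j j.2 (j.2.trans hk)
      refine ⟨W1 + W2, fun a b => ?_⟩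
      rw [jQ, h]
      simp only [Pi.add_apply, add_mul, Finset.sum_add_distrib]
      have e1 := h1 a b
      have e2 := h2 a b
      simp only [up]
      rw [e1, e2]
    | mul i j =>
      obtain ⟨W1, h1⟩ := ih i i.2 (i.2.trans hk)
      obtain ⟨W2, h2⟩ := ih j j.2 (j.2.trans hk)
      have hl : lft C ⟨k, hk⟩ = C.up ⟨k, hk⟩ i := by rw [lft, h]
      have hr : rgt C ⟨k, hk⟩ = C.up ⟨k, hk⟩ j := by rw [rgt, h]
      by_cases hns : C.IsNonscalar ⟨k, hk⟩
      · refine ⟨jc C (C.up ⟨k, hk⟩ i) • W2 + jc C (C.up ⟨k, hk⟩ j) • W1 +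
          Pi.single ⟨⟨k, hk⟩, hns⟩ 1, fun a b => ?_⟩
        rw [jQ, h]
        simp only [Pi.add_apply, add_mul, Finset.sum_add_distrib, Pi.smul_apply, smul_eq_mul,
          mul_assoc, ← Finset.mul_sum]
        have e1 := h1 a b
        have e2 := h2 a b
        rw [show jQ C a b (C.up ⟨k, hk⟩ i) = _ from e1, show jQ C a b (C.up ⟨k, hk⟩ j) = _ from e2]
        congr 1
        rw [Finset.sum_eq_single ⟨⟨k, hk⟩, hns⟩]
        · rw [Pi.single_eq_same, one_mul, hl, hr]
        · intro g _ hg
          rw [Pi.single_eq_of_ne hg, zero_mul]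
        · simp
      · refine ⟨jc C (C.up ⟨k, hk⟩ i) • W2 + jc C (C.up ⟨k, hk⟩ j) • W1, fun a b => ?_⟩
        rw [jQ, h]
        simp only [Pi.add_apply, add_mul, Finset.sum_add_distrib, Pi.smul_apply, smul_eq_mul,
          mul_assoc, ← Finset.mul_sum]
        have e1 := h1 a b
        have e2 := h2 a b
        rw [show jQ C a b (C.up ⟨k, hk⟩ i) = _ from e1, show jQ C a b (C.up ⟨k, hk⟩ j) = _ from e2]
        have hz : jA C (C.up ⟨k, hk⟩ i) a * jB C (C.up ⟨k, hk⟩ j) b +
            jA C (C.up ⟨k, hk⟩ j) a * jB C (C.up ⟨k, hk⟩ i) b = 0 := by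
          unfold IsNonscalar at hns
          push Not at hns
          by_cases h3 : ∀ c : F, C.poly (C.up ⟨k, hk⟩ i) ≠ MvPolynomial.C c
          · obtain ⟨c, hc⟩ := hns i j h h3
            rw [jA_eq_zero_of_const C _ c hc, jB_eq_zero_of_const C _ c hc]
            ring
          · push Not at h3
            obtain ⟨c, hc⟩ := h3
            rw [jA_eq_zero_of_const C _ c hc, jB_eq_zero_of_const C _ c hc]
            ring
        rw [hz, add_zero]

/-- the linear part of a polynomial -/
theorem ev_linear (a b : Fin m × Fin m → F) (p : MvPolynomial (Vars m) F) :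
    (ev a b p).fst.fst = MvPolynomial.coeff 0 p ∧
    (ev a b p).fst.snd = ∑ x, MvPolynomial.coeff (Finsupp.single (Sum.inl x) 1) p * a x ∧
    (ev a b p).snd.fst = ∑ x, MvPolynomial.coeff (Finsupp.single (Sum.inr x) 1) p * b x := by
  classical
  induction p using MvPolynomial.induction_on with
  | C c =>
    have : (algebraMap F (DualNumber (DualNumber F))) c
        = TrivSqZeroExt.inl (TrivSqZeroExt.inl c) := rfl
    refine ⟨by simp [ev, this], ?_, ?_⟩
    · have : ∀ x, MvPolynomial.coeff (Finsupp.single (Sum.inl x : Vars m) 1)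
          (MvPolynomial.C c : MvPolynomial (Vars m) F) = 0 := by
        intro x
        rw [MvPolynomial.coeff_C, if_neg]
        intro h
        have := congrArg (fun f => f (Sum.inl x)) h
        simp at this
      simp only [this, zero_mul, Finset.sum_const_zero]
      simp [ev, ‹(algebraMap F (DualNumber (DualNumber F))) c = _›]
    · have : ∀ x, MvPolynomial.coeff (Finsupp.single (Sum.inr x : Vars m) 1)
          (MvPolynomial.C c : MvPolynomial (Vars m) F) = 0 := by
        intro x
        rw [MvPolynomial.coeff_C, if_neg]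
        intro h
        have := congrArg (fun f => f (Sum.inr x)) h
        simp at this
      simp only [this, zero_mul, Finset.sum_const_zero]
      simp [ev, ‹(algebraMap F (DualNumber (DualNumber F))) c = _›]
  | add p q hp hq =>
    simp only [map_add, TrivSqZeroExt.fst_add, TrivSqZeroExt.snd_add, hp, hq,
      MvPolynomial.coeff_add, add_mul, Finset.sum_add_distrib, and_self]
  | mul_X p n hp =>
    obtain ⟨h1, h2, h3⟩ := hp
    have hz : ∀ y : Vars m, MvPolynomial.coeff (Finsupp.single y 1) (p * MvPolynomial.X n) =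
        if n = y then MvPolynomial.coeff 0 p else 0 := by
      intro y
      rw [MvPolynomial.coeff_mul_X']
      by_cases hy : n = y
      · subst hy; simp
      · rw [if_neg, if_neg hy]
        simpa using hy
    have h0 : MvPolynomial.coeff 0 (p * MvPolynomial.X n) = 0 := by
      rw [MvPolynomial.coeff_mul_X']; simp
    simp only [hz, h0]
    cases n with
    | inl x0 =>
      refine ⟨?_, ?_, ?_⟩
      · simp [ev]
      · simp only [Sum.inl.injEq, ite_mul, zero_mul, Finset.sum_ite_eq, Finset.mem_univ, if_true,
          ← h1]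
        simp [ev, mul_comm]
      · simp [ev]
    | inr x0 =>
      refine ⟨?_, ?_, ?_⟩
      · simp [ev]
      · simp [ev]
      · simp [← h1, ev]

theorem jA_single (C : Circuit F (Vars m)) (k : Fin C.nodes) (x y : Fin m) :
    jA C k (Pi.single (x, y) 1) = linA C k x y := by
  rw [← (ev_poly C (Pi.single (x, y) 1) (0 : Fin m × Fin m → F) k).2.1, (ev_linear _ _ _).2.1,
    Finset.sum_eq_single (x, y)]
  · simp [linA]
  · intro z _ hz; rw [Pi.single_eq_of_ne hz, mul_zero]
  · simp

theorem jB_single (C : Circuit F (Vars m)) (k : Fin C.nodes) (x y : Fin m) :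
    jB C k (Pi.single (x, y) 1) = linB C k x y := by
  rw [← (ev_poly C (0 : Fin m × Fin m → F) (Pi.single (x, y) 1) k).2.2.1, (ev_linear _ _ _).2.2,
    Finset.sum_eq_single (x, y)]
  · simp [linB]
  · intro z _ hz; rw [Pi.single_eq_of_ne hz, mul_zero]
  · simp

/-- the bilinear part of an entry of the product -/
theorem ev_entry (F : Type*) [Field F] (m : ℕ) (i' j' i k k' j : Fin m) :
    (ev (Pi.single (i, k) (1 : F)) (Pi.single (k', j) 1) (entry F m i' j')).snd.snd =
      if k = k' ∧ i = i' ∧ j = j' then 1 else 0 := by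
  have e1 : (ev (Pi.single (i, k) (1 : F)) (Pi.single (k', j) 1) (entry F m i' j')).snd.snd =
      ∑ l : Fin m, (Pi.single (i, k) (1 : F) : Fin m × Fin m → F) (i', l) *
        (Pi.single (k', j) (1 : F) : Fin m × Fin m → F) (l, j') := by
    unfold entry
    simp [ev, TrivSqZeroExt.snd_sum]
  rw [e1]
  by_cases hi : i = i'
  · subst hi
    by_cases hk : k = k'
    · subst hk
      rw [Finset.sum_eq_single k]
      · by_cases hj : j = j'
        · subst hj; simp
        · have : ((k, j') : Fin m × Fin m) ≠ (k, j) := fun h => hj (congrArg Prod.snd h).symm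
          rw [Pi.single_eq_of_ne this]; simp [hj]
      · intro l _ hl
        have : ((i, l) : Fin m × Fin m) ≠ (i, k) := fun h => hl (congrArg Prod.snd h)
        rw [Pi.single_eq_of_ne this, zero_mul]
      · simp
    · rw [if_neg (fun h => hk h.1)]
      apply Finset.sum_eq_zero
      intro l _
      by_cases hl : l = k
      · have : ((l, j') : Fin m × Fin m) ≠ (k', j) := fun h =>
          hk (hl.symm.trans (congrArg Prod.fst h))
        rw [Pi.single_eq_of_ne this, mul_zero]
      · have : ((i, l) : Fin m × Fin m) ≠ (i, k) := fun h => hl (congrArg Prod.snd h)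
        rw [Pi.single_eq_of_ne this, zero_mul]
  · rw [if_neg (fun h => hi h.2.1)]
    apply Finset.sum_eq_zero
    intro l _
    have : ((i', l) : Fin m × Fin m) ≠ (i, k) := fun h => hi (congrArg Prod.fst h).symm
    rw [Pi.single_eq_of_ne this, zero_mul]

theorem jQ_entry (C : Circuit F (Vars m)) (o : Fin C.nodes) (i' j' : Fin m)
    (h : C.poly o = entry F m i' j') (i k k' j : Fin m) :
    jQ C (Pi.single (i, k) 1) (Pi.single (k', j) 1) o =
      if k = k' ∧ i = i' ∧ j = j' then 1 else 0 := by
  rw [← (ev_poly C (Pi.single (i, k) 1) (Pi.single (k', j) 1) o).2.2.2, h, ev_entry]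

theorem two_pow_aux {a b x y : ℕ} (hx : x ≤ 2 ^ a) (hy : y ≤ 2 ^ b) :
    x + y ≤ 2 ^ (max a b + 1) := by
  have h1 : 2 ^ a ≤ 2 ^ (max a b) := Nat.pow_le_pow_right (by norm_num) (le_max_left _ _)
  have h2 : 2 ^ b ≤ 2 ^ (max a b) := Nat.pow_le_pow_right (by norm_num) (le_max_right _ _)
  rw [pow_succ]; omega

/-- the rows of the coefficient matrix -/
noncomputable def rows (C : Circuit F (Vars m)) (k : Fin C.nodes) : Finset (Fin m) := by
  classical
  exact Finset.univ.filter (fun x => ∃ y, jA C k (Pi.single (x, y) 1) ≠ 0)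

theorem mem_rows (C : Circuit F (Vars m)) (k : Fin C.nodes) (i : Fin m) :
    i ∈ rows C k ↔ ∃ y, jA C k (Pi.single (i, y) 1) ≠ 0 := by
  simp [rows]

theorem card_rows (C : Circuit F (Vars m)) (k : Fin C.nodes) :
    (rows C k).card ≤ 2 ^ C.depth k := by
  classical
  obtain ⟨k, hk⟩ := k
  induction k using Nat.strong_induction_on with
  | _ k ih =>
    cases h : C.gate ⟨k, hk⟩ with
    | var x =>
      have hd : C.depth ⟨k, hk⟩ = 0 := by rw [depth, h]
      rw [hd]
      cases x with
      | inl x =>
        have : rows C ⟨k, hk⟩ ⊆ {x.1} := by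
          intro i hi
          rw [mem_rows] at hi
          obtain ⟨a, ha⟩ := hi
          rw [jA, h] at ha
          simp only [LinearMap.proj_apply] at ha
          simp only [Finset.mem_singleton]
          by_contra hne
          apply ha
          rw [Pi.single_eq_of_ne]
          intro h'
          exact hne (congrArg Prod.fst h').symm
        calc _ ≤ _ := Finset.card_le_card this
          _ = 2 ^ 0 := by simp
      | inr x =>
        have : rows C ⟨k, hk⟩ = ∅ := by
          apply Finset.eq_empty_of_forall_notMem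
          intro i hi
          rw [mem_rows] at hi
          obtain ⟨a, ha⟩ := hi
          rw [jA, h] at ha
          exact ha rfl
        rw [this]; simp
    | const c =>
      have hd : C.depth ⟨k, hk⟩ = 0 := by rw [depth, h]
      rw [hd]
      have : rows C ⟨k, hk⟩ = ∅ := by
        apply Finset.eq_empty_of_forall_notMem
        intro i hi
        rw [mem_rows] at hi
        obtain ⟨a, ha⟩ := hi
        rw [jA, h] at ha
        exact ha rfl
      rw [this]; simp
    | add i j =>
      have h1 := ih i i.2 (i.2.trans hk)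
      have h2 := ih j j.2 (j.2.trans hk)
      have hd : C.depth ⟨k, hk⟩ = max (C.depth (C.up ⟨k, hk⟩ i)) (C.depth (C.up ⟨k, hk⟩ j)) + 1 := by
        rw [depth, h]
      have hsub : rows C ⟨k, hk⟩ ⊆ rows C (C.up ⟨k, hk⟩ i) ∪ rows C (C.up ⟨k, hk⟩ j) := by
        intro r hr
        rw [mem_rows] at hr
        obtain ⟨a, ha⟩ := hr
        rw [jA, h] at ha
        simp only [LinearMap.add_apply] at ha
        rw [Finset.mem_union, mem_rows, mem_rows]
        by_contra hcon
        push Not at hcon
        exact ha (by rw [hcon.1 a, hcon.2 a, add_zero])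
      rw [hd]
      calc _ ≤ _ := Finset.card_le_card hsub
        _ ≤ _ := Finset.card_union_le _ _
        _ ≤ _ := two_pow_aux h1 h2
    | mul i j =>
      have h1 := ih i i.2 (i.2.trans hk)
      have h2 := ih j j.2 (j.2.trans hk)
      have hd : C.depth ⟨k, hk⟩ = max (C.depth (C.up ⟨k, hk⟩ i)) (C.depth (C.up ⟨k, hk⟩ j)) + 1 := by
        rw [depth, h]
      have hsub : rows C ⟨k, hk⟩ ⊆ rows C (C.up ⟨k, hk⟩ i) ∪ rows C (C.up ⟨k, hk⟩ j) := by
        intro r hr
        rw [mem_rows] at hr
        obtain ⟨a, ha⟩ := hr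
        rw [jA, h] at ha
        simp only [LinearMap.add_apply, LinearMap.smul_apply, smul_eq_mul] at ha
        rw [Finset.mem_union, mem_rows, mem_rows]
        by_contra hcon
        push Not at hcon
        exact ha (by rw [hcon.1 a, hcon.2 a, mul_zero, mul_zero, add_zero])
      rw [hd]
      calc _ ≤ _ := Finset.card_le_card hsub
        _ ≤ _ := Finset.card_union_le _ _
        _ ≤ _ := two_pow_aux h1 h2

theorem rank_linA_le (C : Circuit F (Vars m)) (k : Fin C.nodes) :
    (linA C k).rank ≤ 2 ^ C.depth k := by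
  refine le_trans (Matrix.rank_le_card_of_support_subset _ (rows C k) ?_) (card_rows C k)
  intro x hx
  rw [Finset.mem_coe, mem_rows]
  by_contra hcon
  push Not at hcon
  apply hx
  funext y
  rw [Matrix.row, ← jA_single, hcon]
  rfl

end Expansion

section Quadratic

variable {F : Type*} [Field F] {m r : ℕ}

/-- the bilinear part of a product of two linear forms -/
theorem ev_prod (l l' : Vars m → F) (i k k' j : Fin m) :
    (ev (Pi.single (i, k) (1 : F)) (Pi.single (k', j) 1)
      ((∑ x, MvPolynomial.C (l x) * MvPolynomial.X x) *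
      (∑ x, MvPolynomial.C (l' x) * MvPolynomial.X x))).snd.snd =
      l (Sum.inl (i, k)) * l' (Sum.inr (k', j)) + l' (Sum.inl (i, k)) * l (Sum.inr (k', j)) := by
  have key : ∀ l : Vars m → F, ev (Pi.single (i, k) (1 : F)) (Pi.single (k', j) 1)
      (∑ x, MvPolynomial.C (l x) * MvPolynomial.X x) =
      TrivSqZeroExt.inl (TrivSqZeroExt.inr (l (Sum.inl (i, k)))) +
      TrivSqZeroExt.inr (TrivSqZeroExt.inl (l (Sum.inr (k', j)))) := by
    intro l
    have e : ∀ x, ev (Pi.single (i, k) (1 : F)) (Pi.single (k', j) 1)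
        (MvPolynomial.C (l x) * MvPolynomial.X x) = l x • Sum.elim
      (fun x => (TrivSqZeroExt.inl (TrivSqZeroExt.inr ((Pi.single (i, k) (1 : F) :
        Fin m × Fin m → F) x)) : DualNumber (DualNumber F)))
      (fun y => (TrivSqZeroExt.inr (TrivSqZeroExt.inl ((Pi.single (k', j) (1 : F) :
        Fin m × Fin m → F) y)) : DualNumber (DualNumber F))) x := by
      intro x
      have hal : (algebraMap F (DualNumber (DualNumber F))) (l x) =
        TrivSqZeroExt.inl (TrivSqZeroExt.inl (l x)) := rfl
      rw [map_mul, ev, MvPolynomial.aeval_C, MvPolynomial.aeval_X, hal]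
      cases x with
      | inl x => simp only [Sum.elim_inl]; ext <;> simp [mul_comm]
      | inr x => simp only [Sum.elim_inr]; ext <;> simp
    rw [map_sum]
    simp only [e]
    rw [Fintype.sum_sum_type, Finset.sum_eq_single (i, k), Finset.sum_eq_single (k', j)]
    · simp only [Sum.elim_inl, Sum.elim_inr, Pi.single_eq_same]
      congr 1
      · ext <;> simp
      · ext <;> simp
    · intro y _ hy
      simp only [Sum.elim_inr]
      rw [Pi.single_eq_of_ne hy]
      ext <;> simp
    · simp
    · intro y _ hy
      simp only [Sum.elim_inl]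
      rw [Pi.single_eq_of_ne hy]
      ext <;> simp
    · simp
  rw [map_mul, key, key]
  simp

theorem nnz_eq {α : Type*} [Fintype α] [DecidableEq F] (f : α → F) :
    nnz f = (Finset.univ.filter (fun x => f x ≠ 0)).card := by
  unfold nnz
  rw [Nat.card_eq_fintype_card, Fintype.card_subtype]

/-- the numbers of nonzero coefficients of the two kinds -/
theorem nnz_vars (l : Vars m → F) :
    nnz (fun x : Fin m × Fin m => l (Sum.inl x)) + nnz (fun x : Fin m × Fin m => l (Sum.inr x)) =
      nnz l := by
  classical
  rw [nnz_eq, nnz_eq, nnz_eq, Finset.card_filter, Finset.card_filter, Finset.card_filter,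
    Fintype.sum_sum_type]

/-- the multiplications whose results are used -/
noncomputable def used (w : Fin m → Fin m → Fin r → F) : Finset (Fin r) := by
  classical
  exact Finset.univ.filter (fun g => ∃ i j, w i j g ≠ 0)

theorem not_mem_used (w : Fin m → Fin m → Fin r → F) (g : Fin r) (hg : g ∉ used w)
    (i j : Fin m) : w i j g = 0 := by
  by_contra hne
  apply hg
  simp only [used, Finset.mem_filter, Finset.mem_univ, true_and]
  exact ⟨i, j, hne⟩

theorem two_cube_le (l l' : Fin r → Vars m → F) (w : Fin m → Fin m → Fin r → F)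
    (h : IsQuadAlg l l' w) : 2 * m ^ 3 ≤ ∑ g ∈ used w, (nnz (l g) + nnz (l' g)) := by
  classical
  let S := {g // g ∈ used w} × Bool
  let U : S → Matrix (Fin m) (Fin m) F := fun s =>
    Matrix.of fun x y => (if s.2 then l s.1 else l' s.1) (Sum.inl (x, y))
  let V : S → Matrix (Fin m) (Fin m) F := fun s =>
    Matrix.of fun x y => (if s.2 then l' s.1 else l s.1) (Sum.inr (x, y))
  let W : S → Matrix (Fin m) (Fin m) F := fun s => Matrix.of fun x y => w x y s.1
  have hdec : ∀ i k k' j i' j', ∑ s, U s i k * V s k' j * W s i' j' =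
      if k = k' ∧ i = i' ∧ j = j' then 1 else 0 := by
    intro i k k' j i' j'
    rw [← ev_entry F m i' j' i k k' j, h i' j', map_sum, TrivSqZeroExt.snd_sum,
      TrivSqZeroExt.snd_sum, Fintype.sum_prod_type]
    have e1 : ∀ g, (ev (Pi.single (i, k) (1 : F)) (Pi.single (k', j) 1)
        (MvPolynomial.C (w i' j' g) * ((∑ x, MvPolynomial.C (l g x) * MvPolynomial.X x) *
        (∑ x, MvPolynomial.C (l' g x) * MvPolynomial.X x)))).snd.snd = w i' j' g *
        (l g (Sum.inl (i, k)) * l' g (Sum.inr (k', j)) +
          l' g (Sum.inl (i, k)) * l g (Sum.inr (k', j))) := by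
      intro g
      rw [← ev_prod, ← MvPolynomial.smul_eq_C_mul, map_smul]
      rfl
    simp only [e1]
    rw [← Finset.sum_subset (Finset.subset_univ (used w)), ← Finset.attach_eq_univ,
      ← Finset.sum_attach (used w)]
    · apply Finset.sum_congr rfl
      intro g _
      rw [Fintype.sum_bool]
      simp only [U, V, W, if_true, Matrix.of_apply]
      simp
      ring
    · intro g _ hg
      rw [not_mem_used w g hg, zero_mul]
  have hA := cube_le_sum_rank U V W hdec
  have hB := cube_le_sum_rank' U V W hdec
  have e2 : ∑ s : S, ((U s).rank + (V s).rank) ≤ ∑ g ∈ used w, (nnz (l g) + nnz (l' g)) := by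
    rw [Fintype.sum_prod_type, ← Finset.attach_eq_univ, ← Finset.sum_attach (used w)]
    apply Finset.sum_le_sum
    intro g _
    rw [Fintype.sum_bool, ← nnz_vars (l g), ← nnz_vars (l' g)]
    have h1 := rank_le_nnz (U (g, true))
    have h2 := rank_le_nnz (U (g, false))
    have h3 := rank_le_nnz (V (g, true))
    have h4 := rank_le_nnz (V (g, false))
    simp only [U, V, if_true, Matrix.of_apply, Prod.mk.eta, Bool.false_eq_true, if_false]
      at h1 h2 h3 h4
    simp only [U, V, if_true, Bool.false_eq_true, if_false]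
    omega
  rw [Finset.sum_add_distrib] at e2
  omega

theorem productCost_ge (l l' : Fin r → Vars m → F) (w : Fin m → Fin m → Fin r → F)
    (h : IsQuadAlg l l' w) : 2 * m ^ 3 ≤ productCost l l' + (used w).card := by
  have h1 := two_cube_le l l' w h
  have h2 : ∑ g ∈ used w, (nnz (l g) + nnz (l' g)) ≤
      ∑ g ∈ used w, (((nnz (l g) - 1) + (nnz (l' g) - 1) + 1) + 1) :=
    Finset.sum_le_sum (fun g _ => by omega)
  have h4 : ∑ g ∈ used w, (((nnz (l g) - 1) + (nnz (l' g) - 1) + 1) + 1) =
      ∑ g ∈ used w, ((nnz (l g) - 1) + (nnz (l' g) - 1) + 1) + (used w).card := by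
    rw [Finset.sum_add_distrib, Finset.sum_const, smul_eq_mul, mul_one]
  have h3 : ∑ g ∈ used w, ((nnz (l g) - 1) + (nnz (l' g) - 1) + 1) ≤ productCost l l' :=
    Finset.sum_le_sum_of_subset (Finset.subset_univ _)
  omega

theorem used_card_le (w : Fin m → Fin m → Fin r → F) :
    (used w).card ≤ ∑ i, ∑ j, (nnz (w i j) - 1) + m ^ 2 := by
  classical
  have h1 : (used w).card ≤ ∑ x : Fin m × Fin m, nnz (w x.1 x.2) := by
    have h2 : used w ⊆ Finset.univ.biUnion (fun x : Fin m × Fin m =>
        Finset.univ.filter (fun g => w x.1 x.2 g ≠ 0)) := by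
      intro g hg
      simp only [used, Finset.mem_filter, Finset.mem_univ, true_and] at hg
      obtain ⟨i, j, hne⟩ := hg
      exact Finset.mem_biUnion.2 ⟨(i, j), Finset.mem_univ _,
        Finset.mem_filter.2 ⟨Finset.mem_univ _, hne⟩⟩
    refine (Finset.card_le_card h2).trans (Finset.card_biUnion_le.trans ?_)
    apply Finset.sum_le_sum
    intro x _
    rw [nnz_eq]
  calc (used w).card ≤ ∑ x : Fin m × Fin m, nnz (w x.1 x.2) := h1
    _ ≤ ∑ x : Fin m × Fin m, ((nnz (w x.1 x.2) - 1) + 1) :=
        Finset.sum_le_sum (fun x _ => by omega)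
    _ = ∑ i, ∑ j, (nnz (w i j) - 1) + m ^ 2 := by
        rw [Finset.sum_add_distrib, Fintype.sum_prod_type]
        simp [sq]

theorem used_card_le_cost (l l' : Fin r → Vars m → F) (w : Fin m → Fin m → Fin r → F) :
    (used w).card ≤ productCost l l' := by
  calc (used w).card = ∑ g ∈ used w, 1 := by simp
    _ ≤ ∑ g ∈ used w, ((nnz (l g) - 1) + (nnz (l' g) - 1) + 1) :=
        Finset.sum_le_sum (fun g _ => by omega)
    _ ≤ productCost l l' := Finset.sum_le_sum_of_subset (Finset.subset_univ _)

theorem nnz_single {α : Type*} [Fintype α] [DecidableEq α] (x : α) :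
    nnz (Pi.single x (1 : F) : α → F) = 1 := by
  classical
  rw [nnz_eq, Finset.card_eq_one]
  refine ⟨x, ?_⟩
  ext y
  simp only [Finset.mem_filter, Finset.mem_univ, true_and, Finset.mem_singleton]
  constructor
  · intro h
    by_contra hne
    exact h (Pi.single_eq_of_ne hne _)
  · rintro rfl; simp

/-- the standard algorithm -/
theorem standard (F : Type*) [Field F] (m : ℕ) :
    ∃ (l l' : Fin (m ^ 3) → Vars m → F) (w : Fin m → Fin m → Fin (m ^ 3) → F),
      IsQuadAlg l l' w ∧ productCost l l' = m ^ 3 ∧
      directCost l l' w + m ^ 2 = 2 * m ^ 3 := by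
  classical
  have hcard : Fintype.card (Fin m × Fin m × Fin m) = m ^ 3 := by
    simp [Fintype.card_prod]; ring
  let e : Fin (m ^ 3) ≃ Fin m × Fin m × Fin m := (Fintype.equivFinOfCardEq hcard).symm
  let l : Fin (m ^ 3) → Vars m → F := fun g => Pi.single (Sum.inl ((e g).1, (e g).2.1)) 1
  let l' : Fin (m ^ 3) → Vars m → F := fun g => Pi.single (Sum.inr ((e g).2.1, (e g).2.2)) 1
  let w : Fin m → Fin m → Fin (m ^ 3) → F := fun i j g =>
    if (e g).1 = i ∧ (e g).2.2 = j then 1 else 0
  have hp : productCost l l' = m ^ 3 := by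
    unfold productCost
    simp only [l, l', nnz_single]
    simp
  have hsum : ∀ y : Vars m, (∑ x, MvPolynomial.C ((Pi.single y (1 : F) : Vars m → F) x) *
      MvPolynomial.X x : MvPolynomial (Vars m) F) = MvPolynomial.X y := by
    intro y
    rw [Finset.sum_eq_single y]
    · simp
    · intro x _ hx; rw [Pi.single_eq_of_ne hx]; simp
    · simp
  refine ⟨l, l', w, ?_, hp, ?_⟩
  · intro i j
    simp only [l, l', hsum, entry]
    symm
    rw [Equiv.sum_comp e (fun q => MvPolynomial.C (if q.1 = i ∧ q.2.2 = j then (1 : F) else 0) *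
      (MvPolynomial.X (Sum.inl (q.1, q.2.1)) * MvPolynomial.X (Sum.inr (q.2.1, q.2.2)) :
        MvPolynomial (Vars m) F)), Fintype.sum_prod_type, Finset.sum_eq_single i]
    · rw [Fintype.sum_prod_type]
      apply Finset.sum_congr rfl
      intro k _
      rw [Finset.sum_eq_single j]
      · simp
      · intro y _ hy; simp [hy]
      · simp
    · intro x _ hx
      apply Finset.sum_eq_zero; intro q _
      simp [hx]
    · simp
  · have hw : ∀ i j, nnz (w i j) = m := by
      intro i j
      have h1 : nnz (w i j) = (Finset.univ.image (fun k : Fin m => e.symm (i, k, j))).card := by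
        rw [nnz_eq]
        congr 1
        ext g
        simp only [Finset.mem_filter, Finset.mem_univ, true_and, Finset.mem_image, w]
        constructor
        · intro h
          have h2 : (e g).1 = i ∧ (e g).2.2 = j := by
            by_contra hcon
            exact h (if_neg hcon)
          refine ⟨(e g).2.1, ?_⟩
          rw [Equiv.symm_apply_eq]
          exact Prod.ext h2.1.symm (Prod.ext rfl h2.2.symm)
        · rintro ⟨k, rfl⟩
          simp
      rw [h1, Finset.card_image_of_injective]
      · simp
      · intro k k' hkk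
        simpa using hkk
    unfold directCost
    rw [hp]
    simp only [hw, Finset.sum_const, Finset.card_univ, Fintype.card_fin, smul_eq_mul]
    rcases Nat.eq_zero_or_pos m with hm | hm
    · subst hm; rfl
    · obtain ⟨m', rfl⟩ : ∃ m', m = m' + 1 := ⟨m - 1, by omega⟩
      simp only [Nat.add_sub_cancel]
      ring

end Quadratic

open Classical in
theorem circuit_bounds {F : Type*} [Field F] (m : ℕ) (C : Circuit F (Vars m))
    (hC : ∀ i j : Fin m, ∃ k : Fin C.nodes, C.poly k = entry F m i j) :
    m ^ 3 ≤ ∑ g : {g // C.IsNonscalar g}, ((linA C (lft C g)).rank + (linA C (rgt C g)).rank) ∧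
    m ^ 3 ≤ ∑ g : {g // C.IsNonscalar g}, ((linB C (lft C g)).rank + (linB C (rgt C g)).rank) ∧
    (∀ s : ℕ, (∀ g, C.IsNonscalar g → (linA C (lft C g)).rank + (linA C (rgt C g)).rank ≤ s) →
      m ^ 3 ≤ s * C.nonscalarCount) ∧
    (∀ D : ℕ, (∀ g, C.IsNonscalar g → C.depth g ≤ D) → m ^ 3 ≤ 2 ^ D * C.nonscalarCount) := by
  choose out hout using hC
  choose W hW using fun i j => jQ_expand C (out i j)
  let S := {g // C.IsNonscalar g} × Bool
  let U : S → Matrix (Fin m) (Fin m) F := fun s => linA C (if s.2 then lft C s.1 else rgt C s.1)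
  let V : S → Matrix (Fin m) (Fin m) F := fun s => linB C (if s.2 then rgt C s.1 else lft C s.1)
  let W' : S → Matrix (Fin m) (Fin m) F := fun s => Matrix.of fun i j => W i j s.1
  have hdec : ∀ i k k' j i' j', ∑ s, U s i k * V s k' j * W' s i' j' =
      if k = k' ∧ i = i' ∧ j = j' then 1 else 0 := by
    intro i k k' j i' j'
    rw [← jQ_entry C (out i' j') i' j' (hout i' j') i k k' j, hW, Fintype.sum_prod_type]
    apply Finset.sum_congr rfl
    intro g _
    rw [Fintype.sum_bool]
    simp only [U, V, W', jA_single, jB_single, if_true, Matrix.of_apply]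
    simp
    ring
  have hA := cube_le_sum_rank U V W' hdec
  have hB := cube_le_sum_rank' U V W' hdec
  have eA : ∑ s, (U s).rank = ∑ g : {g // C.IsNonscalar g},
      ((linA C (lft C g)).rank + (linA C (rgt C g)).rank) := by
    rw [Fintype.sum_prod_type]
    apply Finset.sum_congr rfl
    intro g _
    rw [Fintype.sum_bool]
    simp [U]
  have eB : ∑ s, (V s).rank = ∑ g : {g // C.IsNonscalar g},
      ((linB C (lft C g)).rank + (linB C (rgt C g)).rank) := by
    rw [Fintype.sum_prod_type]
    apply Finset.sum_congr rfl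
    intro g _
    rw [Fintype.sum_bool]
    simp [V, add_comm]
  rw [eA] at hA
  rw [eB] at hB
  have hcount : C.nonscalarCount = Fintype.card {g // C.IsNonscalar g} := by
    unfold nonscalarCount
    rw [Nat.card_eq_fintype_card]
  have hs : ∀ s : ℕ, (∀ g, C.IsNonscalar g → (linA C (lft C g)).rank +
      (linA C (rgt C g)).rank ≤ s) → m ^ 3 ≤ s * C.nonscalarCount := by
    intro s hs
    calc m ^ 3 ≤ _ := hA
      _ ≤ ∑ g : {g // C.IsNonscalar g}, s := Finset.sum_le_sum (fun g _ => hs g.1 g.2)
      _ = s * C.nonscalarCount := by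
          rw [Finset.sum_const, Finset.card_univ, ← hcount, smul_eq_mul, mul_comm]
  refine ⟨hA, hB, hs, ?_⟩
  intro D hD
  apply hs (2 ^ D)
  intro g hg
  have hd := hD g hg
  obtain ⟨i, j, hij, _⟩ := hg
  have hl : lft C g = C.up g i := by rw [lft, hij]
  have hr : rgt C g = C.up g j := by rw [rgt, hij]
  rw [depth, hij] at hd
  simp only at hd
  rw [hl, hr]
  calc _ ≤ 2 ^ (max (C.depth (C.up g i)) (C.depth (C.up g j)) + 1) :=
        two_pow_aux (rank_linA_le C _) (rank_linA_le C _)
    _ ≤ 2 ^ D := Nat.pow_le_pow_right (by norm_num) hd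

open Classical in
/-- Let `F` be a field.
(1) Let `C` be an arithmetic circuit over `F` which computes the `m²` entries of the product
of two generic `m × m` matrices. The ranks of the coefficient matrices of the parts, linear in the
first matrix, of the two inputs of the nonscalar multiplication gates add up to at least `m³`; the
same holds for the second matrix. Hence there are at least `m³ / s` such gates if for each of them
the two ranks add up to at most `s`, and at least `m³ / 2^D` if they all have depth at most `D`.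
(2) A quadratic algorithm for this product, executed by evaluating separately each of the linear
forms that are multiplied and each of the linear combinations of the products that give the `c_ij`,
takes at least `2m³ - m²` additions and nonscalar multiplications; already computing the products
takes at least `m³`.
(3) The standard algorithm attains both bounds of (2). -/
theorem result (F : Type*) [Field F] (m : ℕ) :
    (∀ C : Circuit F (Vars m), (∀ i j : Fin m, ∃ k : Fin C.nodes, C.poly k = entry F m i j) →
      m ^ 3 ≤ ∑ g : {g // C.IsNonscalar g}, ((linA C (lft C g)).rank + (linA C (rgt C g)).rank) ∧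
      m ^ 3 ≤ ∑ g : {g // C.IsNonscalar g}, ((linB C (lft C g)).rank + (linB C (rgt C g)).rank) ∧
      (∀ s : ℕ, (∀ g, C.IsNonscalar g → (linA C (lft C g)).rank + (linA C (rgt C g)).rank ≤ s) →
        m ^ 3 ≤ s * C.nonscalarCount) ∧
      (∀ D : ℕ, (∀ g, C.IsNonscalar g → C.depth g ≤ D) → m ^ 3 ≤ 2 ^ D * C.nonscalarCount)) ∧
    (∀ (r : ℕ) (l l' : Fin r → Vars m → F) (w : Fin m → Fin m → Fin r → F), IsQuadAlg l l' w →
      2 * m ^ 3 ≤ directCost l l' w + m ^ 2 ∧ m ^ 3 ≤ productCost l l') ∧
    (∃ (r : ℕ) (l l' : Fin r → Vars m → F) (w : Fin m → Fin m → Fin r → F), IsQuadAlg l l' w ∧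
      directCost l l' w + m ^ 2 = 2 * m ^ 3 ∧ productCost l l' = m ^ 3) := by
  refine ⟨fun C hC => circuit_bounds m C hC, ?_, ?_⟩
  · intro r l l' w h
    have h1 := productCost_ge l l' w h
    have h2 := used_card_le w
    have h3 := used_card_le_cost l l' w
    unfold directCost
    constructor <;> omega
  · obtain ⟨l, l', w, h1, h2, h3⟩ := standard F m
    exact ⟨_, l, l', w, h1, h3, h2⟩

end Pool.Agent.Results.MP_e72dc0_lc.RankSum
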